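import Pool.Agent.Lib.MP_eccbcf_an.Defs

set_option autoImplicit false

/-! The holomorphic data on the base. -/

namespace Pool.Agent.Lib.MP_eccbcf_an

open Set Filter
open scoped ContDiff Topology

namespace Data

lemma exists_dense : ∃ q : ℕ → ℂ, Function.Injective q ∧ (∀ j, q j ≠ 0) ∧ (∀ j, q j ≠ 1) ∧
    ∀ w : ℂ, ∀ δ : ℝ, 0 < δ → ∃ j, ‖q j - w‖ < δ := by
  obtain ⟨s, hc, hd⟩ := TopologicalSpace.exists_countable_dense ℂ
  have hd' : Dense (s \ {0, 1}) := hd.sdiff_finite (toFinite _)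
  have hi : (s \ {0, 1}).Infinite := by
    intro hf
    have h1 := hf.isClosed.closure_eq
    rw [hd'.closure_eq] at h1
    exact infinite_univ (h1 ▸ hf)
  obtain ⟨D⟩ := countable_infinite_iff_nonempty_denumerable.1 ⟨hc.mono sdiff_subset, hi⟩
  refine ⟨fun n => ((Denumerable.eqv (s \ {0, 1} : Set ℂ)).symm n : ℂ),
    Subtype.val_injective.comp (Equiv.injective _), fun j h => ?_, fun j h => ?_,
    fun w δ hδ => ?_⟩
  · exact ((Denumerable.eqv (s \ {0, 1} : Set ℂ)).symm j).2.2 (Or.inl h)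
  · exact ((Denumerable.eqv (s \ {0, 1} : Set ℂ)).symm j).2.2 (Or.inr h)
  · obtain ⟨y, hy, h⟩ := hd'.exists_dist_lt w hδ
    refine ⟨Denumerable.eqv (s \ {0, 1} : Set ℂ) ⟨y, hy⟩, ?_⟩
    simp only [Equiv.symm_apply_apply]
    rwa [← dist_eq_norm, dist_comm]

/-- The polynomial with the first `N` points as zeros. -/
noncomputable def QQ (q : ℕ → ℂ) (N : ℕ) (w : ℂ) : ℂ := ∏ j ∈ Finset.range N, (w - q j)

lemma QQ_succ (q : ℕ → ℂ) (N : ℕ) (w : ℂ) : QQ q (N + 1) w = QQ q N w * (w - q N) :=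
  Finset.prod_range_succ _ _

lemma diff_QQ (q : ℕ → ℂ) (N : ℕ) : Differentiable ℂ (QQ q N) := by
  unfold QQ
  fun_prop

lemma pick {Q R : ℂ → ℂ} (hQ : Continuous Q) (hR : Continuous R) (h : ∀ w, Q w = 0 → R w ≠ 0)
    {c t : ℝ} (hc : 0 < c) (ht : 0 < t) (ρ : ℝ) :
    ∃ τ, 0 < τ ∧ τ ≤ t ∧ ∀ w : ℂ, ‖w‖ ≤ ρ → c * τ ≤ ‖Q w‖ + ‖R w‖ := by
  obtain ⟨m, hm, h1⟩ := (isCompact_closedBall (0 : ℂ) ρ).exists_forall_le'
    (f := fun w => ‖Q w‖ + ‖R w‖) (hQ.norm.add hR.norm).continuousOn (a := 0) fun w _ => by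
      by_cases h0 : Q w = 0
      · have := norm_pos_iff.2 (h w h0)
        positivity
      · have := norm_pos_iff.2 h0
        positivity
  refine ⟨min t (m / c), by positivity, min_le_left _ _, fun w hw => ?_⟩
  refine le_trans ?_ (h1 w (mem_closedBall_zero_iff.2 hw))
  calc c * min t (m / c) ≤ c * (m / c) := by gcongr; exact min_le_right _ _
    _ = m := by field_simp

lemma exists_seq {q : ℕ → ℂ} (hq : Function.Injective q) {r c : ℕ → ℝ} (hr : ∀ j, 0 < r j)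
    (hc : ∀ j, 0 < c j) (ρ : ℝ) :
    ∃ (τ : ℕ → ℝ) (R : ℕ → ℂ → ℂ), (∀ k, 0 < τ k) ∧ τ 0 ≤ 1 ∧ (∀ k, τ (k + 1) ≤ τ k / 2) ∧
      (∀ k, Differentiable ℂ (R k)) ∧ (∀ w, R 0 w = 0) ∧
      (∀ k w, R (k + 1) w = (w - q k) * R k w + ((r k * τ k / 2 : ℝ) : ℂ) * QQ q k w) ∧
      ∀ k w, ‖w‖ ≤ ρ → c k * τ k ≤ ‖QQ q k w‖ + ‖R k w‖ := by
  let St : ℕ → Type := fun k => {p : ℝ × (ℂ → ℂ) // 0 < p.1 ∧ Differentiable ℂ p.2 ∧
    (∀ w, QQ q k w = 0 → p.2 w ≠ 0) ∧ ∀ w : ℂ, ‖w‖ ≤ ρ → c k * p.1 ≤ ‖QQ q k w‖ + ‖p.2 w‖}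
  have h0 : ∃ s : St 0, s.1.1 ≤ 1 ∧ ∀ w, s.1.2 w = 0 := by
    have hz : ∀ w, QQ q 0 w = 0 → (fun _ : ℂ => (0 : ℂ)) w ≠ 0 := fun w h => by simp [QQ] at h
    obtain ⟨τ, h1, h2, h3⟩ := pick (diff_QQ q 0).continuous continuous_const hz (hc 0) one_pos ρ
    exact ⟨⟨(τ, fun _ => 0), h1, differentiable_const _, hz, h3⟩, h2, fun _ => rfl⟩
  have hs : ∀ k, ∀ s : St k, ∃ s' : St (k + 1), s'.1.1 ≤ s.1.1 / 2 ∧
      ∀ w, s'.1.2 w = (w - q k) * s.1.2 w + ((r k * s.1.1 / 2 : ℝ) : ℂ) * QQ q k w := by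
    rintro k ⟨⟨t, R⟩, h1, h2, h3, -⟩
    have hd : Differentiable ℂ fun w => (w - q k) * R w + ((r k * t / 2 : ℝ) : ℂ) * QQ q k w :=
      ((differentiable_id.sub_const _).mul h2).add ((diff_QQ q k).const_mul _)
    have hz : ∀ w, QQ q (k + 1) w = 0 →
        (fun w => (w - q k) * R w + ((r k * t / 2 : ℝ) : ℂ) * QQ q k w) w ≠ 0 := by
      intro w hw
      by_cases e : w = q k
      · have a1 : ((r k * t / 2 : ℝ) : ℂ) ≠ 0 := by
          have := hr k
          have h1' : 0 < t := h1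
          exact Complex.ofReal_ne_zero.2 (by positivity)
        have a2 : QQ q k (q k) ≠ 0 := Finset.prod_ne_zero_iff.2 fun j hj =>
          sub_ne_zero.2 fun h => (Finset.mem_range.1 hj).ne' (hq h)
        simpa only [e, sub_self, zero_mul, zero_add] using mul_ne_zero a1 a2
      · rw [QQ_succ] at hw
        have a1 := (mul_eq_zero.1 hw).resolve_right (sub_ne_zero.2 e)
        simpa only [a1, mul_zero, add_zero] using mul_ne_zero (sub_ne_zero.2 e) (h3 w a1)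
    obtain ⟨τ, k1, k2, k3⟩ := pick (diff_QQ q (k + 1)).continuous hd.continuous hz (hc (k + 1))
      (half_pos h1) ρ
    exact ⟨⟨(τ, _), k1, hd, hz, k3⟩, k2, fun _ => rfl⟩
  obtain ⟨s0, a1, a2⟩ := h0
  choose F b1 b2 using hs
  let s : ∀ k, St k := fun k => Nat.rec s0 F k
  exact ⟨fun k => (s k).1.1, fun k => (s k).1.2, fun k => (s k).2.1, a1, fun k => b1 k (s k),
    fun k => (s k).2.2.1, a2, fun k => b2 k (s k), fun k => (s k).2.2.2.2⟩

lemma isCompact_cheese (q : ℕ → ℂ) (r : ℕ → ℝ) (N : ℕ) : IsCompact (cheese q r N) := by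
  refine Metric.isCompact_of_isClosed_isBounded ?_
    (isBounded_iff_forall_norm_le.2 ⟨_, fun w hw => hw.2.1⟩)
  have e : cheese q r N = {w : ℂ | Real.exp (-(2 * Real.pi)) ≤ ‖w‖} ∩
      ({w : ℂ | ‖w‖ ≤ Real.exp (2 * Real.pi)} ∩ ⋂ j, ⋂ _ : j < N, {w : ℂ | r j ≤ ‖w - q j‖}) := by
    ext w
    simp [cheese]
  rw [e]
  exact (isClosed_le continuous_const continuous_norm).inter
    ((isClosed_le continuous_norm continuous_const).inter
      (isClosed_iInter fun j => isClosed_iInter fun _ =>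
        isClosed_le continuous_const (by fun_prop)))

end Data

open Data

theorem exists_base
    (hsub : ∀ q : ℕ → ℂ, (∀ j, q j ≠ 0) → (∀ j, q j ≠ 1) →
      ∃ r : ℕ → ℝ, (∀ j, 0 < r j) ∧ ∀ N, ∃ φ : ℂ → ℝ, Sub (cheese q r N) φ) :
    ∃ g, Base g := by
  obtain ⟨q, hq, hq0, hq1, hqd⟩ := exists_dense
  obtain ⟨r, hr, hφ⟩ := hsub q hq0 hq1
  have hS : ∀ k, ∃ S : ℝ, 0 < S ∧ ∀ w : ℂ, ‖w‖ ≤ Real.exp 7 + 1 → ‖QQ q k w‖ ≤ S := by
    intro k
    obtain ⟨C, hC⟩ := (isCompact_closedBall (0 : ℂ) (Real.exp 7 + 1)).exists_bound_of_continuousOn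
      (diff_QQ q k).continuous.continuousOn
    exact ⟨max C 1, lt_max_of_lt_right one_pos, fun w hw =>
      (hC w (mem_closedBall_zero_iff.2 hw)).trans (le_max_left _ _)⟩
  choose S hS0 hS using hS
  obtain ⟨τ, R, hτ, hτ0, hτs, hR, hR0, hRs, hm⟩ := exists_seq hq hr
    (c := fun k => 140 * 2 ^ k * S k) (fun k => by have := hS0 k; positivity) (Real.exp 7 + 1)
  have hε : ∀ k, 0 < S k * τ k := fun k => mul_pos (hS0 k) (hτ k)
  let g : ℕ → ℂ × ℂ → ℂ := fun k x =>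
    if k = 0 then 0 else (x.2 * QQ q k x.1 - R k x.1) / ((S k * τ k : ℝ) : ℂ)
  have hg : ∀ k x, k ≠ 0 → ‖g k x‖ = ‖x.2 * QQ q k x.1 - R k x.1‖ / (S k * τ k) := by
    intro k x hk
    simp only [g, if_neg hk, norm_div, Complex.norm_real, Real.norm_of_nonneg (hε k).le]
  have hz : ∀ x ∈ zset g, ∀ k, k ≠ 0 → ‖x.2 * QQ q k x.1 - R k x.1‖ ≤ 7 * (S k * τ k) := by
    intro x hx k hk
    have h1 : ‖g k x‖ ≤ 7 := by nlinarith [hx.2 k, norm_nonneg (g k x)]
    rwa [hg k x hk, div_le_iff₀ (hε k)] at h1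
  have hw : ∀ x ∈ zset g, ‖x.1‖ ≤ Real.exp 7 := fun x hx => (norm_fst_le x).trans (box_le hx.1)
  refine ⟨g, fun k => ?_, ?_, fun x hx y hy hxy => ?_, fun x₀ hx₀ δ hδ => ?_, fun N => ?_⟩
  · by_cases hk : k = 0
    · simp only [g, if_pos hk]
      exact contDiff_const
    · simp only [g, if_neg hk]
      exact ((contDiff_snd.mul ((diff_QQ q k).contDiff.comp contDiff_fst)).sub
        ((hR k).contDiff.comp contDiff_fst)).div_const _
  · funext x
    simp [g]
  · refine Prod.ext hxy (sub_eq_zero.1 (norm_le_zero_iff.1 ?_))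
    have key : ∀ k : ℕ, ‖x.2 - y.2‖ ≤ (1 / 2) ^ (k + 1) := by
      intro k
      have h1 := hz x hx (k + 1) k.succ_ne_zero
      have h2 := hz y hy (k + 1) k.succ_ne_zero
      rw [← hxy] at h2
      have h3 := hm (k + 1) x.1 ((hw x hx).trans (by linarith))
      have h4 : ‖x.2‖ ≤ 7 := by
        have : sm x.1 ^ 2 + ‖x.2‖ ^ 2 ≤ 43 := hx.1
        nlinarith [sq_nonneg (sm x.1), norm_nonneg x.2]
      have h5 : ‖R (k + 1) x.1‖ ≤ 7 * ‖QQ q (k + 1) x.1‖ + 7 * (S (k + 1) * τ (k + 1)) := by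
        have e : R (k + 1) x.1 =
            x.2 * QQ q (k + 1) x.1 - (x.2 * QQ q (k + 1) x.1 - R (k + 1) x.1) := by ring
        rw [e]
        refine (norm_sub_le _ _).trans (add_le_add ?_ h1)
        rw [norm_mul]
        gcongr
      have h6 : ‖x.2 - y.2‖ * ‖QQ q (k + 1) x.1‖ ≤ 14 * (S (k + 1) * τ (k + 1)) := by
        have e : (x.2 - y.2) * QQ q (k + 1) x.1 = (x.2 * QQ q (k + 1) x.1 - R (k + 1) x.1) -
            (y.2 * QQ q (k + 1) x.1 - R (k + 1) x.1) := by ring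
        rw [← norm_mul, e]
        linarith [norm_sub_le (x.2 * QQ q (k + 1) x.1 - R (k + 1) x.1)
          (y.2 * QQ q (k + 1) x.1 - R (k + 1) x.1)]
      have h7 : (1 : ℝ) ≤ 2 ^ (k + 1) := one_le_pow₀ (by norm_num)
      have h8 := hε (k + 1)
      rw [mul_assoc] at h3
      generalize S (k + 1) * τ (k + 1) = ε at *
      rw [one_div, inv_pow, ← one_div, le_div_iff₀ (by positivity)]
      generalize (2 : ℝ) ^ (k + 1) = T at *
      have h9 : 112 * T * ε ≤ 8 * ‖QQ q (k + 1) x.1‖ := by nlinarith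
      have h10 := mul_le_mul_of_nonneg_left h9 (norm_nonneg (x.2 - y.2))
      refine le_of_mul_le_mul_right (a := 112 * ε) ?_ (by positivity)
      nlinarith
    exact ge_of_tendsto' ((tendsto_pow_atTop_nhds_zero_of_lt_one (by norm_num)
      (by norm_num : (1 / 2 : ℝ) < 1)).comp (tendsto_add_atTop_nat 1)) key
  · obtain ⟨j, hj⟩ := hqd x₀.1 (min (δ / 4) 1) (by positivity)
    have hj1 := hj.le.trans (min_le_left _ _)
    have hj2 := hj.le.trans (min_le_right _ _)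
    have h1 := hm (j + 1) (q j) (by
      linarith [norm_le_norm_add_norm_sub' (q j) x₀.1, hw x₀ hx₀])
    rw [QQ_succ, sub_self, mul_zero, norm_zero, zero_add, mul_assoc] at h1
    have h2 : (1 : ℝ) ≤ 2 ^ (j + 1) := one_le_pow₀ (by norm_num)
    have h3 := hε (j + 1)
    have h4 : 140 * (S (j + 1) * τ (j + 1)) ≤ ‖R (j + 1) (q j)‖ := by nlinarith
    have h5 : 0 < ‖R (j + 1) (q j)‖ := by linarith
    have h6 := norm_pos_iff.1 h5
    let G : ℂ × ℂ → ℂ := fun x =>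
      (x.2 * QQ q j x.1 - dslope (R (j + 1)) (q j) x.1) / R (j + 1) (q j)
    have hd : Differentiable ℂ (dslope (R (j + 1)) (q j)) := differentiableOn_univ.1
      ((Complex.differentiableOn_dslope univ_mem).2 (hR (j + 1)).differentiableOn)
    have hG : Differentiable ℂ G := by
      have d1 := diff_QQ q j
      simp only [G]
      fun_prop
    have hb : ∀ x ∈ zset g, |‖G x‖ * ‖x.1 - q j‖ - 1| ≤ 1 / 20 := by
      intro x hx
      have e1 := sub_smul_dslope (R (j + 1)) (q j) x.1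
      rw [smul_eq_mul] at e1
      have e : G x * (x.1 - q j) - 1 =
          (x.2 * QQ q (j + 1) x.1 - R (j + 1) x.1) / R (j + 1) (q j) := by
        simp only [G]
        rw [QQ_succ]
        field_simp
        linear_combination -e1
      have h7 := abs_norm_sub_norm_le (G x * (x.1 - q j)) 1
      rw [e, norm_mul, norm_one] at h7
      refine h7.trans ?_
      rw [norm_div, div_le_iff₀ h5]
      linarith [hz x hx (j + 1) j.succ_ne_zero]
    refine ⟨fun x => G x * (starRingEnd ℂ) (G x₀), hG.mul_const _, fun x hx hδx => ?_⟩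
    have a1 := (abs_le.1 (hb x hx)).2
    have a2 := (abs_le.1 (hb x₀ hx₀)).1
    have a3 : 3 * δ / 4 ≤ ‖x.1 - q j‖ := by
      have := norm_add_le (x.1 - q j) (q j - x₀.1)
      rw [sub_add_sub_cancel] at this
      linarith
    rw [norm_sub_rev] at hj1
    have a4 : ‖G x‖ * (3 * δ / 4) ≤ ‖G x‖ * ‖x.1 - q j‖ := by gcongr
    have a5 : ‖G x₀‖ * ‖x₀.1 - q j‖ ≤ ‖G x₀‖ * (δ / 4) := by gcongr
    have a6 : ‖G x‖ < ‖G x₀‖ := lt_of_mul_lt_mul_right (a := δ) (by linarith) hδ.le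
    have a7 : 0 < ‖G x₀‖ := (norm_nonneg _).trans_lt a6
    calc (G x * (starRingEnd ℂ) (G x₀)).re ≤ ‖G x * (starRingEnd ℂ) (G x₀)‖ := Complex.re_le_norm _
      _ = ‖G x‖ * ‖G x₀‖ := by rw [norm_mul, Complex.norm_conj]
      _ < ‖G x₀‖ * ‖G x₀‖ := by gcongr
      _ = (G x₀ * (starRingEnd ℂ) (G x₀)).re := by
        rw [Complex.mul_conj, Complex.ofReal_re, Complex.normSq_eq_norm_sq, sq]
  · obtain ⟨φ, h⟩ := hφ N
    let f : ℕ → ℂ → ℂ := fun n w =>
      ∑ j ∈ Finset.range n, ((r j * τ j / 2 : ℝ) : ℂ) / (w - q j)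
    refine ⟨cheese q r N, f N, φ, isCompact_cheese q r N, h, fun w hA => ?_⟩
    obtain ⟨w1, w2, w3⟩ := hA
    have hne : ∀ j < N, w - q j ≠ 0 := fun j hj => norm_pos_iff.1 ((hr j).trans_le (w3 j hj))
    have hf : ∀ k n, k ≤ n → n ≤ N → ‖f n w - f k w‖ ≤ τ k - τ n := by
      intro k n hkn
      induction n, hkn using Nat.le_induction with
      | base => simp
      | succ n hkn ih =>
        intro hn
        have e : f (n + 1) w - f k w =
            (f n w - f k w) + ((r n * τ n / 2 : ℝ) : ℂ) / (w - q n) := by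
          simp only [f, Finset.sum_range_succ]
          ring
        have b1 : ‖((r n * τ n / 2 : ℝ) : ℂ) / (w - q n)‖ ≤ τ n / 2 := by
          have := hr n
          have := hτ n
          have := w3 n hn
          rw [norm_div, Complex.norm_real, Real.norm_of_nonneg (by positivity),
            div_le_iff₀ (by linarith)]
          nlinarith
        rw [e]
        linarith [norm_add_le (f n w - f k w) (((r n * τ n / 2 : ℝ) : ℂ) / (w - q n)),
          ih (by omega), hτs n]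
    have hRf : ∀ k ≤ N, R k w = QQ q k w * f k w := by
      intro k hk
      induction k with
      | zero => simp [hR0, f]
      | succ k ih =>
        have := hne k hk
        rw [hRs, ih (by omega), QQ_succ]
        simp only [f, Finset.sum_range_succ]
        field_simp
    have hp := Real.pi_lt_d2
    have hp0 := Real.pi_pos
    refine ⟨Finset.analyticAt_fun_sum _ fun j hj => analyticAt_const.div
      (analyticAt_id.sub analyticAt_const) (hne j (Finset.mem_range.1 hj)), fun k hk => ?_⟩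
    have c1 : ‖f N w‖ ≤ 1 := by
      have := hf 0 N (Nat.zero_le _) le_rfl
      simp only [f, Finset.range_zero, Finset.sum_empty, sub_zero] at this
      linarith [hτ N]
    have c2 : ‖g k (w, f N w)‖ ≤ 1 := by
      by_cases h0 : k = 0
      · simp [g, h0]
      · rw [hg k _ h0, div_le_one (hε k), hRf k hk, mul_comm, ← mul_sub, norm_mul]
        refine mul_le_mul (hS k w (w2.trans ?_)) ?_ (norm_nonneg _) (hS0 k).le
        · linarith [Real.exp_le_exp.2 (show 2 * Real.pi ≤ 7 by linarith)]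
        · linarith [hf k N hk le_rfl, hτ N]
    have c3 : sm w ^ 2 ≤ (2 * Real.pi) ^ 2 := by
      have hpos : 0 < ‖w‖ := (Real.exp_pos _).trans_le w1
      rw [sm_eq ((Real.exp_le_exp.2 (by linarith)).trans w1)]
      exact sq_le_sq' ((Real.le_log_iff_exp_le hpos).2 w1) ((Real.log_le_iff_le_exp hpos).2 w2)
    nlinarith [norm_nonneg (f N w), norm_nonneg (g k (w, f N w))]

end Pool.Agent.Lib.MP_eccbcf_an
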