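import Pool.Agent.Lib.MP_eccbcf_an.Psi

set_option autoImplicit false

/-! Definitions shared by the parts of the construction, and first facts about the domain. -/

namespace Pool.Agent.Lib.MP_eccbcf_an

open Set Filter
open scoped ContDiff Topology

/-- A closed annulus with finitely many open discs removed. -/
def cheese (q : ℕ → ℂ) (r : ℕ → ℝ) (N : ℕ) : Set ℂ :=
  {w | Real.exp (-(2 * Real.pi)) ≤ ‖w‖ ∧ ‖w‖ ≤ Real.exp (2 * Real.pi) ∧ ∀ j < N, r j ≤ ‖w - q j‖}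

/-- A function that is positive somewhere on `A`, is positive only at interior points of `A`, and
becomes strictly subharmonic there after multiplication by `exp (arg w / 2)`. -/
structure Sub (A : Set ℂ) (φ : ℂ → ℝ) : Prop where
  cont : ContinuousOn φ A
  pos : ∃ w ∈ A, 0 < φ w
  loc : ∀ w₀ ∈ A, 0 < φ w₀ → A ∈ 𝓝 w₀ ∧ ∃ (P : ℂ → ℂ) (c : ℝ), AnalyticAt ℂ P 0 ∧ 0 < c ∧
    (P 0).re = φ w₀ ∧ ∀ᶠ t in 𝓝 (0 : ℂ),
      (P t).re + c * ‖t‖ ^ 2 ≤ Real.exp (t.im / 2) * φ (w₀ * Complex.exp t)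

/-- A set that contains the zero set of the function on the base. -/
def zset (g : ℕ → ℂ × ℂ → ℂ) : Set (ℂ × ℂ) := {x | x ∈ box ∧ ∀ k, ‖g k x‖ ^ 2 ≤ 42}

/-- The properties of the holomorphic data on the base. -/
structure Base (g : ℕ → ℂ × ℂ → ℂ) : Prop where
  smooth : ∀ k, ContDiff ℂ ∞ (g k)
  zero : g 0 = 0
  graph : ∀ x ∈ zset g, ∀ y ∈ zset g, x.1 = y.1 → x = y
  sep : ∀ x₀ ∈ zset g, ∀ δ : ℝ, 0 < δ → ∃ G : ℂ × ℂ → ℂ, Differentiable ℂ G ∧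
    ∀ x ∈ zset g, δ ≤ ‖x.1 - x₀.1‖ → (G x).re < (G x₀).re
  surf : ∀ N : ℕ, ∃ (A : Set ℂ) (f : ℂ → ℂ) (φ : ℂ → ℝ), IsCompact A ∧ Sub A φ ∧
    ∀ w ∈ A, AnalyticAt ℂ f w ∧ ∀ k ≤ N, ‖g k (w, f w)‖ ^ 2 + sm w ^ 2 + ‖f w‖ ^ 2 ≤ 42

/-- The defining function of the domain. -/
noncomputable def rho (Ψ : ℂ × ℂ → ℝ) (q : Fin 3 → ℂ) : ℝ :=
  ‖q 0 - Complex.exp (Complex.I * sm (q 1))‖ ^ 2 - 1 + Ψ (q 1, q 2)

/-- Holomorphic convexity of an open set. -/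
def HolConvex (V : Set (Fin 3 → ℂ)) : Prop :=
  ∀ K ⊆ V, IsCompact K → IsCompact {z ∈ V | ∀ f : (Fin 3 → ℂ) → ℂ, DifferentiableOn ℂ f V →
    ∀ c : ℝ, (∀ w ∈ K, ‖f w‖ ≤ c) → ‖f z‖ ≤ c}

/-- The boundary hull condition. -/
def HullCond (Ω : Set (Fin 3 → ℂ)) : Prop :=
  ∀ K ⊆ closure Ω, IsCompact K →
    {z ∈ closure Ω | ∀ φ : (Fin 3 → ℂ) → ℝ, ContinuousOn φ (closure Ω) →
      (∀ a ∈ Ω, ∀ b : Fin 3 → ℂ, ∀ r : ℝ, 0 ≤ r → (∀ ζ : ℂ, ‖ζ‖ ≤ r → a + ζ • b ∈ Ω) →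
        φ a ≤ (2 * Real.pi)⁻¹ * ∫ θ in (0:ℝ)..(2 * Real.pi),
          φ (a + ((r : ℂ) * Complex.exp ((θ : ℂ) * Complex.I)) • b)) →
      ∀ c : ℝ, (∀ w ∈ K, φ w ≤ c) → φ z ≤ c} ∩ frontier Ω = K ∩ frontier Ω

/-- Supporting functions `re h + κ log ‖w‖` at the boundary points with `z ≠ 0`. -/
def SuppAll (Ψ : ℂ × ℂ → ℝ) : Prop :=
  ∀ p, rho Ψ p = 0 → p 0 ≠ 0 → ∀ K : Set (Fin 3 → ℂ), IsCompact K → (∀ q ∈ K, rho Ψ q ≤ 0) →
    p ∉ K → ∃ (h : (Fin 3 → ℂ) → ℂ) (κ c a B : ℝ), 0 < c ∧ 0 < a ∧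
      DifferentiableOn ℂ h {q | rho Ψ q < 0} ∧ ContinuousOn h {q | rho Ψ q ≤ 0 ∧ q 0 ≠ 0} ∧
      (h p).re + κ * Real.log ‖p 1‖ = 0 ∧
      (∀ q ∈ K, q 0 ≠ 0 → (h q).re + κ * Real.log ‖q 1‖ ≤ -c) ∧
      ∀ q, rho Ψ q ≤ 0 → q 0 ≠ 0 → (h q).re + κ * Real.log ‖q 1‖ ≤ B + a * Real.log ‖q 0‖

/-- Supporting functions at the boundary points with `z = 0`. -/
def SuppZero (Ψ : ℂ × ℂ → ℝ) : Prop :=
  ∀ p, rho Ψ p = 0 → p 0 = 0 → ∀ K : Set (Fin 3 → ℂ), IsCompact K → (∀ q ∈ K, rho Ψ q ≤ 0) →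
    p ∉ K → ∃ (h : (Fin 3 → ℂ) → ℂ) (c : ℝ), 0 < c ∧
      DifferentiableOn ℂ h {q | rho Ψ q < 0} ∧ ContinuousOn h {q | rho Ψ q ≤ 0} ∧
      (h p).re = 0 ∧ ∀ q ∈ K, (h q).re ≤ -c

variable {g : ℕ → ℂ × ℂ → ℂ} {η e : ℕ → ℝ} {Ψ : ℂ × ℂ → ℝ}

lemma norm_centre (s : ℝ) : ‖Complex.exp (Complex.I * s)‖ = 1 := by
  rw [mul_comm, Complex.norm_exp_ofReal_mul_I]

lemma rho_eq (Ψ : ℂ × ℂ → ℝ) (q : Fin 3 → ℂ) : rho Ψ q =
    ‖q 0‖ ^ 2 - 2 * (q 0 * Complex.exp (-(Complex.I * sm (q 1)))).re + Ψ (q 1, q 2) := by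
  have h : (starRingEnd ℂ) (Complex.exp (Complex.I * sm (q 1))) =
      Complex.exp (-(Complex.I * sm (q 1))) := by
    rw [← Complex.exp_conj]
    simp
  rw [rho, ← Complex.normSq_eq_norm_sq, Complex.normSq_sub, h, Complex.normSq_eq_norm_sq,
    Complex.normSq_eq_norm_sq, norm_centre]
  ring

lemma contDiff_rho (h : Psi g η e Ψ) : ContDiff ℝ ∞ (rho Ψ) := by
  have p : ∀ i : Fin 3, ContDiff ℝ ∞ fun q : Fin 3 → ℂ => q i := fun i => contDiff_apply ℝ ℂ i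
  have c : ContDiff ℝ ∞ fun q : Fin 3 → ℂ => Complex.exp (Complex.I * sm (q 1)) :=
    (contDiff_const.mul (Complex.ofRealCLM.contDiff.comp (contDiff_sm.comp (p 1)))).cexp
  exact ((((p 0).sub c).norm_sq ℝ).sub contDiff_const).add (h.smooth.comp ((p 1).prodMk (p 2)))

lemma continuous_rho (h : Psi g η e Ψ) : Continuous (rho Ψ) := (contDiff_rho h).continuous

lemma isOpen_dom (h : Psi g η e Ψ) : IsOpen {q | rho Ψ q < 0} :=
  isOpen_lt (continuous_rho h) continuous_const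

lemma closure_dom (h : Psi g η e Ψ) : closure {q | rho Ψ q < 0} ⊆ {q | rho Ψ q ≤ 0} :=
  closure_lt_subset_le (continuous_rho h) continuous_const

lemma frontier_dom (h : Psi g η e Ψ) : frontier {q | rho Ψ q < 0} ⊆ {q | rho Ψ q = 0} :=
  frontier_lt_subset_eq (continuous_rho h) continuous_const

lemma psi_le {q : Fin 3 → ℂ} (hq : rho Ψ q ≤ 0) : Ψ (q 1, q 2) ≤ 1 := by
  unfold rho at hq
  linarith [sq_nonneg ‖q 0 - Complex.exp (Complex.I * sm (q 1))‖]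

lemma mem_box (h : Psi g η e Ψ) {q : Fin 3 → ℂ} (hq : rho Ψ q ≤ 0) : (q 1, q 2) ∈ box :=
  h.mem _ (psi_le hq)

lemma norm_fst_le_two (h : Psi g η e Ψ) {q : Fin 3 → ℂ} (hq : rho Ψ q ≤ 0) : ‖q 0‖ ≤ 2 := by
  have h1 := h.nonneg (q 1, q 2)
  have h2 := norm_sub_norm_le (q 0) (Complex.exp (Complex.I * sm (q 1)))
  unfold rho at hq
  rw [norm_centre] at h2
  nlinarith [norm_nonneg (q 0 - Complex.exp (Complex.I * sm (q 1)))]

lemma isCompact_cl (h : Psi g η e Ψ) : IsCompact {q | rho Ψ q ≤ 0} := by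
  refine Metric.isCompact_of_isClosed_isBounded (isClosed_le (continuous_rho h) continuous_const)
    (isBounded_iff_forall_norm_le.2 ⟨Real.exp 7, fun q hq => ?_⟩)
  have b := box_le (mem_box h hq)
  have := Real.add_one_le_exp 7
  refine (pi_norm_le_iff_of_nonneg (by positivity)).2 fun i => ?_
  fin_cases i
  · exact (norm_fst_le_two h hq).trans (by linarith)
  · exact (norm_fst_le (q 1, q 2)).trans b
  · exact (norm_snd_le (q 1, q 2)).trans b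

/-- On the closed domain the real part of `z exp (-i s)` is positive unless `z = 0`. -/
lemma re_pos (h : Psi g η e Ψ) {q : Fin 3 → ℂ} (hq : rho Ψ q ≤ 0) (h0 : q 0 ≠ 0) :
    0 < (q 0 * Complex.exp (-(Complex.I * sm (q 1)))).re := by
  have := h.nonneg (q 1, q 2)
  have h1 : 0 < ‖q 0‖ ^ 2 := by positivity
  rw [rho_eq] at hq
  linarith

lemma fst_ne_zero (h : Psi g η e Ψ) {q : Fin 3 → ℂ} (hq : rho Ψ q < 0) : q 0 ≠ 0 := by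
  intro h0
  have := h.nonneg (q 1, q 2)
  rw [rho_eq, h0] at hq
  simp at hq
  linarith

lemma psi_eq_zero (h : Psi g η e Ψ) {q : Fin 3 → ℂ} (hq : rho Ψ q ≤ 0) (h0 : q 0 = 0) :
    Ψ (q 1, q 2) = 0 := by
  have := h.nonneg (q 1, q 2)
  rw [rho_eq, h0] at hq
  simp at hq
  linarith

lemma mem_zset (h : Psi g η e Ψ) {x : ℂ × ℂ} (hx : Ψ x = 0) : x ∈ zset g := by
  have b := h.mem x (by linarith)
  refine ⟨b, fun k => ?_⟩
  have h1 := le_hasSum (h.sum x b) k fun j _ =>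
    mul_nonneg (h.e_pos j).le (expNegInvGlue.nonneg _)
  have h2 : vv (η k) (g k) x ≤ 0 := by
    by_contra hv
    have := mul_pos (h.e_pos k) (expNegInvGlue.pos_of_pos (not_le.1 hv))
    linarith
  have := h.η_pos k
  unfold vv at h2
  nlinarith [sq_nonneg (sm x.1), sq_nonneg ‖x.2‖]

end Pool.Agent.Lib.MP_eccbcf_an
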