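import Pool.Agent.Lib.MP_eccbcf_an.Defs

set_option autoImplicit false

/-! The domain is connected and its defining function has no critical point on the boundary. -/

namespace Pool.Agent.Lib.MP_eccbcf_an

open Set Filter
open scoped ContDiff Topology

variable {g : ℕ → ℂ × ℂ → ℂ} {η e : ℕ → ℝ} {Ψ : ℂ × ℂ → ℝ}

namespace Dom

/-- The segment from the centre of the fibre to the point. -/
noncomputable def seg (q : Fin 3 → ℂ) (t : ℝ) : Fin 3 → ℂ :=
  ![Complex.exp (Complex.I * sm (q 1)) + t * (q 0 - Complex.exp (Complex.I * sm (q 1))), q 1, q 2]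

/-- The curve of centres over the radial contraction. -/
noncomputable def gam (x : ℂ × ℂ) (t : ℝ) : Fin 3 → ℂ :=
  ![Complex.exp (Complex.I * ((t * sm x.1 : ℝ) : ℂ)), (ray x t).1, (ray x t).2]

lemma diff_ofReal : Differentiable ℝ fun t : ℝ => (t : ℂ) := Complex.ofRealCLM.differentiable

lemma diff_seg (q : Fin 3 → ℂ) : Differentiable ℝ (seg q) := by
  refine differentiable_pi.2 fun i => ?_
  fin_cases i
  · exact (diff_ofReal.mul_const _).const_add _
  · exact differentiable_const (q 1)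
  · exact differentiable_const (q 2)

lemma diff_gam (x : ℂ × ℂ) : Differentiable ℝ (gam x) := by
  refine differentiable_pi.2 fun i => ?_
  fin_cases i
  · exact ((diff_ofReal.comp (differentiable_id.mul_const (sm x.1))).const_mul Complex.I).cexp
  · exact (diff_ofReal.comp ((differentiable_id.sub_const 1).mul_const (sm x.1)).exp).const_mul x.1
  · exact diff_ofReal.mul_const x.2

lemma seg_one (q : Fin 3 → ℂ) : seg q 1 = q := by
  funext i
  fin_cases i <;> simp [seg]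

lemma seg_zero (q : Fin 3 → ℂ) : seg q 0 = gam (q 1, q 2) 1 := by
  funext i
  fin_cases i <;> simp [seg, gam, ray]

lemma rho_seg (Ψ : ℂ × ℂ → ℝ) (q : Fin 3 → ℂ) (t : ℝ) : rho Ψ (seg q t) =
    rho Ψ q + (t ^ 2 - 1) * ‖q 0 - Complex.exp (Complex.I * sm (q 1))‖ ^ 2 := by
  have : rho Ψ (seg q t) = ‖Complex.exp (Complex.I * sm (q 1)) +
      t * (q 0 - Complex.exp (Complex.I * sm (q 1))) - Complex.exp (Complex.I * sm (q 1))‖ ^ 2 - 1 +
      Ψ (q 1, q 2) := rfl
  rw [this, add_sub_cancel_left, norm_mul, mul_pow, Complex.norm_real, Real.norm_eq_abs, sq_abs,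
    rho]
  ring

lemma rho_gam (Ψ : ℂ × ℂ → ℝ) {x : ℂ × ℂ} (hx : x ∈ box) {t : ℝ} (ht : t ∈ Icc (0 : ℝ) 1) :
    rho Ψ (gam x t) = Ψ (ray x t) - 1 := by
  have : rho Ψ (gam x t) = ‖Complex.exp (Complex.I * ((t * sm x.1 : ℝ) : ℂ)) -
      Complex.exp (Complex.I * sm (ray x t).1)‖ ^ 2 - 1 + Ψ (ray x t) := rfl
  rw [this, sm_ray hx ht, sub_self, norm_zero]
  ring

lemma gam_zero {x : ℂ × ℂ} (hx : x ∈ box) :
    ‖(ray x 0).1‖ = 1 ∧ gam x 0 = ![1, (ray x 0).1, 0] := by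
  constructor
  · rw [ray, norm_mul, Complex.norm_real, Real.norm_of_nonneg (Real.exp_pos _).le, box_norm hx,
      ← Real.exp_add]
    simp
  · funext i
    fin_cases i <;> simp [gam, ray]

lemma rho_circ (h : Psi g η e Ψ) {w : ℂ} (hw : ‖w‖ = 1) : rho Ψ ![1, w, 0] < 0 := by
  have h1 : sm w = 0 := by
    rw [sm_eq (hw ▸ Real.exp_le_one_iff.2 (by norm_num)), hw, Real.log_one]
  have : rho Ψ ![1, w, 0] = ‖1 - Complex.exp (Complex.I * sm w)‖ ^ 2 - 1 + Ψ (w, 0) := rfl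
  rw [this, h1]
  simpa using h.core w hw

lemma slope_false {φ : ℝ → ℝ} {c : ℝ} (hc : 0 < c) (hd : HasDerivAt φ 0 1) (h1 : φ 1 = 0)
    (hle : ∀ t ∈ Icc (3 / 4 : ℝ) 1, φ t ≤ c * (t - 1)) : False := by
  have ht := (hasDerivAt_iff_tendsto_slope_left_right.1 hd).1
  refine hc.not_ge (ge_of_tendsto ht ?_)
  filter_upwards [Ioo_mem_nhdsLT (show (3 / 4 : ℝ) < 1 by norm_num)] with t ht
  rw [slope_def_field, h1, sub_zero, le_div_iff_of_neg (by linarith [ht.2])]
  exact hle t ⟨ht.1.le, ht.2.le⟩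

lemma deriv_zero (h : Psi g η e Ψ) {q : Fin 3 → ℂ} (h0 : fderiv ℝ (rho Ψ) q = 0)
    {γ : ℝ → Fin 3 → ℂ} (hγ : Differentiable ℝ γ) (h1 : γ 1 = q) :
    HasDerivAt (fun t => rho Ψ (γ t)) 0 1 := by
  have h2 : HasFDerivAt (rho Ψ) (0 : (Fin 3 → ℂ) →L[ℝ] ℝ) (γ 1) := by
    rw [h1, ← h0]
    exact ((contDiff_rho h).differentiable (by simp) q).hasFDerivAt
  exact h2.comp_hasDerivAt 1 (hγ 1).hasDerivAt

end Dom

open Dom

theorem isConnected_dom (h : Psi g η e Ψ) : IsConnected {q | rho Ψ q < 0} := by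
  refine ⟨⟨_, rho_circ h norm_one⟩, isPreconnected_of_forall ![1, 1, 0] fun q hq => ?_⟩
  have hq' : rho Ψ q < 0 := hq
  have hb := mem_box h hq'.le
  have hΨ : Ψ (q 1, q 2) < 1 := by
    unfold rho at hq'
    linarith [sq_nonneg ‖q 0 - Complex.exp (Complex.I * sm (q 1))‖]
  have c1 : IsPreconnected (seg q '' Icc 0 1) :=
    isPreconnected_Icc.image _ (diff_seg q).continuous.continuousOn
  have c2 : IsPreconnected (gam (q 1, q 2) '' Icc 0 1) :=
    isPreconnected_Icc.image _ (diff_gam _).continuous.continuousOn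
  have c3 : IsPreconnected ((fun w : ℂ => (![1, w, 0] : Fin 3 → ℂ)) '' Metric.sphere 0 1) := by
    refine (isPreconnected_sphere (by simp) (0 : ℂ) 1).image _ (Continuous.continuousOn ?_)
    refine continuous_pi fun i => ?_
    fin_cases i
    · exact continuous_const
    · exact continuous_id
    · exact continuous_const
  refine ⟨(seg q '' Icc 0 1 ∪ gam (q 1, q 2) '' Icc 0 1) ∪
    (fun w : ℂ => (![1, w, 0] : Fin 3 → ℂ)) '' Metric.sphere 0 1, ?_,
    Or.inr ⟨1, by simp, rfl⟩, Or.inl (Or.inl ⟨1, by simp, seg_one q⟩), ?_⟩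
  · rintro p ((⟨t, ht, rfl⟩ | ⟨t, ht, rfl⟩) | ⟨w, hw, rfl⟩)
    · change rho Ψ (seg q t) < 0
      rw [rho_seg]
      have : t ^ 2 - 1 ≤ 0 := by nlinarith [ht.1, ht.2]
      linarith [mul_nonpos_of_nonpos_of_nonneg this
        (sq_nonneg ‖q 0 - Complex.exp (Complex.I * sm (q 1))‖)]
    · change rho Ψ (gam (q 1, q 2) t) < 0
      rw [rho_gam Ψ hb ht, sub_neg]
      exact (h.ray _ hΨ.le t ht).trans_lt (max_lt (by norm_num) (by linarith [ht.2]))
    · exact rho_circ h (mem_sphere_zero_iff_norm.1 hw)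
  · refine IsPreconnected.union (gam (q 1, q 2) 0) (Or.inr ⟨0, by simp, rfl⟩) ?_
      (IsPreconnected.union (seg q 0) ⟨0, by simp, rfl⟩ ⟨1, by simp, (seg_zero q).symm⟩ c1 c2) c3
    exact ⟨_, mem_sphere_zero_iff_norm.2 (gam_zero hb).1, (gam_zero hb).2.symm⟩

theorem fderiv_rho_ne (h : Psi g η e Ψ) (q : Fin 3 → ℂ) (hq : rho Ψ q = 0) :
    fderiv ℝ (rho Ψ) q ≠ 0 := by
  intro h0
  rcases eq_or_ne (q 0 - Complex.exp (Complex.I * sm (q 1))) 0 with hz | hz
  · have hb := mem_box h hq.le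
    have h1 : gam (q 1, q 2) 1 = q := by
      rw [← seg_zero]
      conv_rhs => rw [← seg_one q]
      simp only [seg, hz, mul_zero]
    refine slope_false one_pos (deriv_zero h h0 (diff_gam _) h1) (by rw [h1, hq]) fun t ht => ?_
    have ht' : t ∈ Icc (0 : ℝ) 1 := ⟨by linarith [ht.1], ht.2⟩
    have h2 := psi_le hq.le
    have h3 : Ψ (ray (q 1, q 2) t) ≤ t :=
      (h.ray _ h2 t ht').trans (max_le ht.1 (by linarith))
    rw [rho_gam Ψ hb ht']
    linarith
  · have hp : 0 < ‖q 0 - Complex.exp (Complex.I * sm (q 1))‖ ^ 2 := by positivity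
    refine slope_false hp (deriv_zero h h0 (diff_seg q) (seg_one q)) (by rw [seg_one, hq])
      fun t ht => ?_
    rw [rho_seg, hq, zero_add, mul_comm]
    refine mul_le_mul_of_nonneg_left ?_ hp.le
    nlinarith [ht.1, ht.2]

end Pool.Agent.Lib.MP_eccbcf_an
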