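import Pool.Agent.Lib.MP_eccbcf_an.Defs

set_option autoImplicit false

/-! Supporting functions give holomorphic convexity and the boundary hull condition. -/

namespace Pool.Agent.Lib.MP_eccbcf_an

open Set Filter
open scoped ContDiff Topology

variable {g : ℕ → ℂ × ℂ → ℂ} {η e : ℕ → ℝ} {Ψ : ℂ × ℂ → ℝ}

/-- The exponential of a harmonic function satisfies the sub-mean inequality. -/
lemma exp_harm_le {L : ℂ → ℝ} {r : ℝ}
    (hL : InnerProductSpace.HarmonicOnNhd L (Metric.closedBall 0 |r|)) :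
    Real.exp (L 0) ≤ Real.circleAverage (fun t => Real.exp (L t)) 0 r := by
  have hm : Real.circleAverage L 0 r = L 0 := hL.circleAverage_eq
  have hc : ContinuousOn L (Metric.sphere 0 |r|) :=
    hL.continuousOn.mono Metric.sphere_subset_closedBall
  have i1 : CircleIntegrable (fun t => Real.exp (L 0) • L t) 0 r :=
    (hc.const_smul (Real.exp (L 0))).circleIntegrable'
  have i0 : CircleIntegrable (fun _ : ℂ => Real.exp (L 0) * (1 - L 0)) 0 r :=
    continuousOn_const.circleIntegrable'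
  have key : Real.circleAverage (fun t => Real.exp (L 0) * (1 - L 0) + Real.exp (L 0) • L t) 0 r ≤
      Real.circleAverage (fun t => Real.exp (L t)) 0 r := by
    refine Real.circleAverage_mono (i0.add i1) hc.rexp.circleIntegrable' fun t _ => ?_
    have h1 := Real.add_one_le_exp (L t - L 0)
    have h2 : Real.exp (L t) = Real.exp (L 0) * Real.exp (L t - L 0) := by
      rw [← Real.exp_add]
      congr 1
      ring
    have h3 := Real.exp_pos (L 0)
    rw [h2, smul_eq_mul]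
    nlinarith
  rw [Real.circleAverage_fun_add i0 i1, Real.circleAverage_const, Real.circleAverage_fun_smul, hm,
    smul_eq_mul] at key
  linarith

/-- The sub-mean inequality for `exp (re h + κ log ‖w‖)`. -/
lemma submean {Ω : Set (Fin 3 → ℂ)} (hΩ : IsOpen Ω) (hw : ∀ q ∈ Ω, q 1 ≠ 0)
    {k : (Fin 3 → ℂ) → ℂ} (hd : DifferentiableOn ℂ k Ω) (κ : ℝ) {φ : (Fin 3 → ℂ) → ℝ}
    (hφ : ∀ q ∈ Ω, φ q = Real.exp ((k q).re + κ * Real.log ‖q 1‖)) :
    ∀ a ∈ Ω, ∀ b : Fin 3 → ℂ, ∀ r : ℝ, 0 ≤ r → (∀ ζ : ℂ, ‖ζ‖ ≤ r → a + ζ • b ∈ Ω) →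
      φ a ≤ (2 * Real.pi)⁻¹ * ∫ θ in (0:ℝ)..(2 * Real.pi),
        φ (a + ((r : ℂ) * Complex.exp ((θ : ℂ) * Complex.I)) • b) := by
  intro a ha b r hr hin
  have hl : Differentiable ℂ fun t : ℂ => a + t • b := by fun_prop
  have hU : IsOpen {t : ℂ | a + t • b ∈ Ω} := hΩ.preimage hl.continuous
  have hk : DifferentiableOn ℂ (fun t : ℂ => k (a + t • b)) {t : ℂ | a + t • b ∈ Ω} :=
    hd.comp hl.differentiableOn fun _ ht => ht
  have hL : InnerProductSpace.HarmonicOnNhd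
      (fun t : ℂ => (k (a + t • b)).re + κ * Real.log ‖(a + t • b) 1‖) (Metric.closedBall 0 |r|) := by
    intro t ht
    rw [abs_of_nonneg hr, mem_closedBall_zero_iff] at ht
    have h1 := (hk.analyticAt (hU.mem_nhds (hin t ht))).harmonicAt_re
    have h2 : AnalyticAt ℂ (fun t : ℂ => (a + t • b) 1) t :=
      (differentiable_pi.1 hl 1).analyticAt t
    exact h1.add ((h2.harmonicAt_log_norm (hw _ (hin t ht))).const_smul (c := κ))
  have := exp_harm_le hL
  simp only [zero_smul, add_zero] at this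
  rw [hφ a ha]
  refine this.trans_eq ?_
  rw [Real.circleAverage_def, smul_eq_mul]
  congr 1
  refine intervalIntegral.integral_congr fun θ _ => ?_
  have hn : ‖(r : ℂ) * Complex.exp ((θ : ℂ) * Complex.I)‖ ≤ r := by
    rw [norm_mul, Complex.norm_exp_ofReal_mul_I, mul_one, Complex.norm_real, Real.norm_of_nonneg hr]
  simp only [circleMap, zero_add]
  rw [hφ _ (hin _ hn)]

lemma snd_ne_zero (h : Psi g η e Ψ) {q : Fin 3 → ℂ} (hq : rho Ψ q ≤ 0) : q 1 ≠ 0 :=
  box_ne (mem_box h hq)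

lemma abs_log_le (h : Psi g η e Ψ) {q : Fin 3 → ℂ} (hq : rho Ψ q ≤ 0) :
    |Real.log ‖q 1‖| ≤ 7 := by
  have h1 := box_sm (mem_box h hq)
  rwa [box_log (mem_box h hq)] at h1

lemma continuousOn_supp (h : Psi g η e Ψ) {k : (Fin 3 → ℂ) → ℂ} (κ : ℝ)
    (hk : ContinuousOn k {q | rho Ψ q ≤ 0 ∧ q 0 ≠ 0}) :
    ContinuousOn (fun q => (k q).re + κ * Real.log ‖q 1‖) {q | rho Ψ q ≤ 0 ∧ q 0 ≠ 0} :=
  (Complex.continuous_re.comp_continuousOn hk).add (continuousOn_const.mul
    ((continuous_apply 1).norm.continuousOn.log fun _ hq =>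
      norm_ne_zero_iff.2 (snd_ne_zero h hq.1)))

theorem holConvex_dom (h : Psi g η e Ψ) (hs : SuppAll Ψ) : HolConvex {q | rho Ψ q < 0} := by
  intro K hKV hK
  set H := {z ∈ {q | rho Ψ q < 0} | ∀ f : (Fin 3 → ℂ) → ℂ,
    DifferentiableOn ℂ f {q | rho Ψ q < 0} → ∀ c : ℝ, (∀ w ∈ K, ‖f w‖ ≤ c) → ‖f z‖ ≤ c} with hH
  refine (isCompact_cl h).of_isClosed_subset (isClosed_of_closure_subset fun p hp => ?_)
    fun q hq => le_of_lt (α := ℝ) hq.1
  have hp0 : rho Ψ p ≤ 0 := closure_dom h (closure_mono (fun q hq => hq.1) hp)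
  rcases hp0.lt_or_eq with hlt | heq
  · refine ⟨hlt, fun f hf c hc => ?_⟩
    exact ContinuousWithinAt.closure_le hp
      (hf.continuousOn.continuousAt ((isOpen_dom h).mem_nhds hlt)).norm.continuousWithinAt
      continuousWithinAt_const fun q hq => hq.2 f hf c hc
  exfalso
  rcases eq_or_ne (p 0) 0 with hz | hz
  · have hd : DifferentiableOn ℂ (fun q : Fin 3 → ℂ => (q 0)⁻¹) {q | rho Ψ q < 0} :=
      (differentiable_apply (𝕜 := ℂ) (0 : Fin 3)).differentiableOn.inv fun q hq => fst_ne_zero h hq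
    obtain ⟨c, hc⟩ := hK.exists_bound_of_continuousOn (hd.continuousOn.mono hKV)
    have : (1 : ℝ) ≤ c * ‖p 0‖ := by
      refine ContinuousWithinAt.closure_le (f := fun _ => (1 : ℝ)) (g := fun q => c * ‖q 0‖) hp
        continuousWithinAt_const (Continuous.continuousWithinAt (by fun_prop)) fun q hq => ?_
      have h1 := hq.2 _ hd c hc
      have h2 := norm_pos_iff.2 (fst_ne_zero h hq.1)
      rwa [norm_inv, inv_le_iff_one_le_mul₀ h2] at h1
    rw [hz, norm_zero, mul_zero] at this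
    linarith
  obtain ⟨k, κ, c, a, B, hc, -, hd, hcont, hkp, hkK, -⟩ := hs p heq hz K hK
    (fun q hq => le_of_lt (α := ℝ) (hKV hq)) fun hp => (ne_of_lt (α := ℝ) (hKV hp)) heq
  obtain ⟨n, hn⟩ := exists_nat_gt (14 / c)
  rw [div_lt_iff₀ hc] at hn
  have hn0 : (0 : ℝ) ≤ n := n.cast_nonneg
  have hm1 := Int.floor_le (n * κ)
  have hm2 := Int.lt_floor_add_one (n * κ)
  set m := ⌊n * κ⌋
  have hf : DifferentiableOn ℂ (fun q => Complex.exp (n * k q) * q 1 ^ m) {q | rho Ψ q < 0} :=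
    (hd.const_mul _).cexp.mul ((differentiable_apply (𝕜 := ℂ) (1 : Fin 3)).differentiableOn.zpow
      (.inl fun q hq => snd_ne_zero h (le_of_lt (α := ℝ) hq)))
  have hnorm : ∀ q, rho Ψ q ≤ 0 → ∃ d, |d| ≤ 7 ∧ ‖Complex.exp (n * k q) * q 1 ^ m‖ =
      Real.exp (n * ((k q).re + κ * Real.log ‖q 1‖) + d) := fun q hq => by
    refine ⟨(m - n * κ) * Real.log ‖q 1‖, ?_, ?_⟩
    · have h1 : |(m : ℝ) - n * κ| ≤ 1 := abs_le.2 ⟨by linarith, by linarith⟩
      rw [abs_mul]
      nlinarith [abs_log_le h hq, abs_nonneg (Real.log ‖q 1‖), abs_nonneg ((m : ℝ) - n * κ)]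
    · rw [norm_mul, norm_zpow, Complex.norm_exp, ← Real.rpow_intCast,
        Real.rpow_def_of_pos (norm_pos_iff.2 (snd_ne_zero h hq)), ← Real.exp_add]
      congr 1
      simp only [Complex.mul_re, Complex.natCast_re, Complex.natCast_im]
      ring
  have hb : ∀ w ∈ K, ‖Complex.exp (n * k w) * w 1 ^ m‖ ≤ Real.exp (7 - n * c) := fun w hw => by
    obtain ⟨d, hd1, hd2⟩ := hnorm w (le_of_lt (α := ℝ) (hKV hw))
    have := hkK w hw (fst_ne_zero h (hKV hw))
    rw [hd2, Real.exp_le_exp]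
    nlinarith [(abs_le.1 hd1).2]
  have : n * ((k p).re + κ * Real.log ‖p 1‖) ≤ 14 - n * c := by
    refine ContinuousWithinAt.closure_le (f := fun q => n * ((k q).re + κ * Real.log ‖q 1‖))
      (g := fun _ => 14 - n * c) hp (continuousWithinAt_const.mul
        ((continuousOn_supp h κ hcont p ⟨hp0, hz⟩).mono fun q hq =>
          ⟨le_of_lt (α := ℝ) hq.1, fst_ne_zero h hq.1⟩)) continuousWithinAt_const fun q hq => ?_
    obtain ⟨d, hd1, hd2⟩ := hnorm q (le_of_lt (α := ℝ) hq.1)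
    have h1 := hq.2 _ hf _ hb
    rw [hd2, Real.exp_le_exp] at h1
    linarith [(abs_le.1 hd1).1]
  rw [hkp] at this
  linarith

/-- The exponential of a supporting function extends by zero across `z = 0`. -/
lemma continuousOn_ext (h : Psi g η e Ψ) {k : (Fin 3 → ℂ) → ℂ} {κ a B : ℝ} (ha : 0 < a)
    (hk : ContinuousOn k {q | rho Ψ q ≤ 0 ∧ q 0 ≠ 0})
    (hB : ∀ q, rho Ψ q ≤ 0 → q 0 ≠ 0 →
      (k q).re + κ * Real.log ‖q 1‖ ≤ B + a * Real.log ‖q 0‖) :
    ContinuousOn (fun q => if q 0 = 0 then 0 else Real.exp ((k q).re + κ * Real.log ‖q 1‖))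
      {q | rho Ψ q ≤ 0} := by
  intro p hp
  rcases eq_or_ne (p 0) 0 with hz | hz
  · have h1 : Continuous fun q : Fin 3 → ℂ => Real.exp B * ‖q 0‖ ^ a :=
      continuous_const.mul ((continuous_apply 0).norm.rpow_const fun _ => .inr ha.le)
    have h2 : Tendsto (fun q : Fin 3 → ℂ => Real.exp B * ‖q 0‖ ^ a) (𝓝[{q | rho Ψ q ≤ 0}] p)
        (𝓝 0) := by
      have := (h1.continuousWithinAt (s := {q | rho Ψ q ≤ 0}) (x := p)).tendsto
      rwa [hz, norm_zero, Real.zero_rpow ha.ne', mul_zero] at this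
    rw [ContinuousWithinAt, if_pos hz]
    refine squeeze_zero' (Eventually.of_forall fun q => ?_)
      (eventually_nhdsWithin_of_forall fun q hq => ?_) h2
    · split_ifs
      · exact le_rfl
      · exact (Real.exp_pos _).le
    · split_ifs with h0
      · positivity
      · rw [Real.rpow_def_of_pos (norm_pos_iff.2 h0), ← Real.exp_add, Real.exp_le_exp, mul_comm _ a]
        exact hB q hq h0
  · have hn : {q : Fin 3 → ℂ | q 0 ≠ 0} ∈ 𝓝 p :=
      (isOpen_ne_fun (continuous_apply 0) continuous_const).mem_nhds hz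
    refine ((continuousOn_supp h κ hk p ⟨hp, hz⟩).rexp.mono_of_mem_nhdsWithin
      (inter_mem_nhdsWithin _ hn)).congr_of_eventuallyEq ?_ (if_neg hz)
    filter_upwards [mem_nhdsWithin_of_mem_nhds hn] with q hq using if_neg hq

theorem hullCond_dom (h : Psi g η e Ψ) (hs : SuppAll Ψ) (hz : SuppZero Ψ) :
    HullCond {q | rho Ψ q < 0} := by
  intro K hKc hK
  refine Subset.antisymm ?_ fun p hp => ⟨⟨hKc hp.1, fun _ _ _ _ hc => hc p hp.1⟩, hp.2⟩
  rintro p ⟨⟨-, H⟩, hf⟩
  refine ⟨by_contra fun hpK => ?_, hf⟩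
  have hp : rho Ψ p = 0 := frontier_dom h hf
  have hK0 : ∀ q ∈ K, rho Ψ q ≤ 0 := fun q hq => closure_dom h (hKc hq)
  have hw : ∀ q ∈ {q | rho Ψ q < 0}, q 1 ≠ 0 := fun q hq => snd_ne_zero h (le_of_lt (α := ℝ) hq)
  rcases eq_or_ne (p 0) 0 with h0 | h0
  · obtain ⟨k, c, hc, hd, hcont, hkp, hkK⟩ := hz p hp h0 K hK hK0 hpK
    have := H (fun q => Real.exp (k q).re)
      ((Complex.continuous_re.comp_continuousOn hcont).rexp.mono (closure_dom h))
      (submean (isOpen_dom h) hw hd 0 fun q _ => by rw [zero_mul, add_zero]) (Real.exp (-c))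
      fun q hq => Real.exp_le_exp.2 (hkK q hq)
    rw [Real.exp_le_exp, hkp] at this
    linarith
  · obtain ⟨k, κ, c, a, B, hc, ha, hd, hcont, hkp, hkK, hB⟩ := hs p hp h0 K hK hK0 hpK
    have := H _ ((continuousOn_ext h ha hcont hB).mono (closure_dom h))
      (submean (isOpen_dom h) hw hd κ fun q hq => if_neg (fst_ne_zero h hq)) (Real.exp (-c))
      fun q hq => by
        split_ifs with hq0
        · exact (Real.exp_pos _).le
        · exact Real.exp_le_exp.2 (hkK q hq hq0)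
    rw [if_neg h0, Real.exp_le_exp, hkp] at this
    linarith

end Pool.Agent.Lib.MP_eccbcf_an
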