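import Mathlib

set_option autoImplicit false

/-! Real inequalities behind the supporting functions. -/

namespace Pool.Agent.Lib.MP_eccbcf_an

open Real Set

/-- The gap in the tangent line inequality for the exponential function. -/
noncomputable def gapA (x : ℝ) : ℝ := exp x - 1 - x

lemma gapA_nonneg (x : ℝ) : 0 ≤ gapA x := by
  have := add_one_le_exp x
  unfold gapA
  linarith

lemma gapA_eq_zero {x : ℝ} (h : gapA x = 0) : x = 0 := by
  by_contra hx
  have := add_one_lt_exp hx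
  unfold gapA at h
  linarith

lemma gapA_two {x : ℝ} (h : 0 ≤ x) : x ^ 2 ≤ 2 * gapA x := by
  have := quadratic_le_exp_of_nonneg h
  unfold gapA
  linarith

lemma gapA_four {x : ℝ} (h : -2 ≤ x) : x ^ 2 ≤ 4 * gapA x := by
  have h1 := add_one_le_exp (x / 2)
  have h2 : exp x = exp (x / 2) ^ 2 := by rw [← exp_nat_mul]; congr 1; push_cast; ring
  have h3 : (x / 2 + 1) ^ 2 ≤ exp (x / 2) ^ 2 := by gcongr; linarith
  unfold gapA
  nlinarith

lemma gapA_abs (x : ℝ) : |x| - 1 ≤ gapA x := by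
  rcases le_total 0 x with h | h
  · have := gapA_two h
    rw [abs_of_nonneg h]
    nlinarith [sq_nonneg (x - 1)]
  · have := exp_pos x
    rw [abs_of_nonpos h]
    unfold gapA
    linarith

lemma gapA_sq (x : ℝ) : x ^ 2 ≤ (4 + 2 * |x|) * gapA x := by
  have h0 := gapA_nonneg x
  have h1 := abs_nonneg x
  rcases le_total (-2) x with h | h
  · nlinarith [gapA_four h]
  · have := gapA_abs x
    rw [abs_of_nonpos (by linarith)] at *
    nlinarith

lemma gapA_add (x y : ℝ) : |x + y| / 2 - 1 ≤ gapA x + gapA y := by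
  have := gapA_abs x
  have := gapA_abs y
  have := gapA_nonneg x
  have := gapA_nonneg y
  have := abs_add_le x y
  rcases le_total |x| |y| with h | h <;> linarith

lemma core_ineq {v ν n m R D : ℝ} (hv : 0 < v) (hY : v ≤ 1 / 200) (hν : ν < 0 → v * (200 - ν) ≤ 1)
    (e : ν = n - m + R) (h1 : gapA (-m) ≤ 2 * D) (h2 : gapA (-m) - 5 / 2 ≤ D) :
    v * ν ^ 2 ≤ gapA n + D + R ^ 2 / 8 := by
  have a0 := gapA_nonneg n
  have c0 := gapA_nonneg (-m)
  rcases le_or_gt 0 ν with h | h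
  · have b1 : max n 0 ^ 2 ≤ 2 * gapA n := by
      rcases le_total n 0 with g | g
      · rw [max_eq_right g]; linarith
      · rw [max_eq_left g]; exact gapA_two g
    have b2 : max (-m) 0 ^ 2 ≤ 2 * gapA (-m) := by
      rcases le_total (-m) 0 with g | g
      · rw [max_eq_right g]; linarith
      · rw [max_eq_left g]; exact gapA_two g
    have b3 : ν ≤ max n 0 + max (-m) 0 + |R| := by
      linarith [le_max_left n 0, le_max_left (-m) 0, le_abs_self R]
    have b4 : ν ^ 2 ≤ (max n 0 + max (-m) 0 + |R|) ^ 2 := by gcongr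
    have b5 := sq_abs R
    generalize max n 0 = a at *
    generalize max (-m) 0 = c at *
    generalize |R| = b at *
    have b6 : v * ν ^ 2 ≤ 1 / 200 * ν ^ 2 := by gcongr
    nlinarith [sq_nonneg (a - b), sq_nonneg (a - c), sq_nonneg (b - c)]
  · have hν := hν h
    have b3 : -ν ≤ |n| + |-m| + |R| := by
      linarith [neg_abs_le n, neg_abs_le (-m), neg_abs_le R]
    have a1 := gapA_abs n
    have a2 := gapA_sq n
    have c1 := gapA_abs (-m)
    have c2 := gapA_sq (-m)
    have b5 := sq_abs R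
    rw [← sq_abs] at a2 c2
    have a3 := abs_nonneg n
    have c3 := abs_nonneg (-m)
    have b0 := abs_nonneg R
    generalize |n| = a at *
    generalize |-m| = c at *
    generalize |R| = b at *
    rcases le_total (a + c + b) 10 with g | g
    · have b4 : (-ν) ^ 2 ≤ (a + c + b) ^ 2 := by gcongr; linarith
      have b6 : v * ν ^ 2 ≤ 1 / 200 * ν ^ 2 := by gcongr
      have a4 : (4 + 2 * a) * gapA n ≤ 24 * gapA n := by gcongr; linarith
      have c4 : (4 + 2 * c) * gapA (-m) ≤ 24 * gapA (-m) := by gcongr; linarith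
      nlinarith [sq_nonneg (a - b), sq_nonneg (a - c), sq_nonneg (b - c)]
    · have b7 : v * ν ^ 2 ≤ a + c + b - 9 := by
        refine le_of_mul_le_mul_right ?_ (show 0 < 200 - ν by linarith)
        have : v * ν ^ 2 * (200 - ν) ≤ ν ^ 2 := by nlinarith [sq_nonneg ν]
        rcases le_total (-ν) 10 with k | k <;> nlinarith
      nlinarith [sq_nonneg (b - 4)]

lemma glue_pos {v : ℝ} (hv : 0 < v) : expNegInvGlue v = exp (-v⁻¹) := by
  simp [expNegInvGlue, hv.not_ge]

/-- The inequality for one flat term. -/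
lemma term_ineq {v v₀ R m l t : ℝ} (h₀ : 0 < v₀) (hY₀ : v₀ ≤ 1 / 200) (hY : v ≤ 1 / 200)
    (h1 : exp (-m) ≤ 1 - l) (h2 : t ^ 2 / 2 ≤ m - l) (h4 : t ^ 2 ≤ 10) :
    (v - v₀) / v₀ ^ 2 - R + l + t ^ 2 / 4 - R ^ 2 / 8 ≤
      expNegInvGlue v / expNegInvGlue v₀ * exp (m - R) - 1 := by
  have h3 : l ≤ 1 := by linarith [exp_pos (-m)]
  have i₀ : 200 ≤ v₀⁻¹ := by rw [le_inv_comm₀ (by norm_num) h₀]; linarith
  rcases le_or_gt v 0 with hv | hv
  · have : (v - v₀) / v₀ ^ 2 ≤ -v₀⁻¹ := by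
      rw [div_le_iff₀ (by positivity)]
      field_simp
      linarith
    rw [expNegInvGlue.zero_of_nonpos hv, zero_div, zero_mul]
    nlinarith [sq_nonneg (R + 4)]
  · rw [glue_pos hv, glue_pos h₀, ← exp_sub, ← exp_add]
    have e1 : (v - v₀) / v₀ ^ 2 = (v₀⁻¹ - v⁻¹) + v * (v₀⁻¹ - v⁻¹) ^ 2 := by
      field_simp
      ring
    have g : gapA (-m) ≤ m - l := by unfold gapA; linarith
    have := core_ineq (ν := v₀⁻¹ - v⁻¹) (n := -v⁻¹ - -v₀⁻¹ + (m - R)) (m := m) (R := R)
      (D := m - l - t ^ 2 / 4) hv hY (fun _ => by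
        have : v * (200 - (v₀⁻¹ - v⁻¹)) ≤ v * v⁻¹ := by gcongr; linarith
        rwa [mul_inv_cancel₀ hv.ne'] at this) (by ring) (by linarith) (by linarith)
    unfold gapA at this
    linarith

lemma tangent_le {f f' : ℝ → ℝ} {a b x y : ℝ} (hf : ∀ u ∈ Ioo a b, HasDerivAt f (f' u) u)
    (hm : MonotoneOn f' (Ioo a b)) (hx : x ∈ Ioo a b) (hy : y ∈ Ioo a b) :
    f x + f' x * (y - x) ≤ f y := by
  rcases lt_trichotomy x y with h | rfl | h
  · have s : Icc x y ⊆ Ioo a b := Icc_subset_Ioo hx.1 hy.2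
    obtain ⟨c, hc, e⟩ := exists_hasDerivAt_eq_slope f f' h
      (fun u hu => (hf u (s hu)).continuousAt.continuousWithinAt)
      fun u hu => hf u (s (Ioo_subset_Icc_self hu))
    have := hm hx (s (Ioo_subset_Icc_self hc)) hc.1.le
    rw [e, le_div_iff₀ (by linarith)] at this
    linarith
  · simp
  · have s : Icc y x ⊆ Ioo a b := Icc_subset_Ioo hy.1 hx.2
    obtain ⟨c, hc, e⟩ := exists_hasDerivAt_eq_slope f f' h
      (fun u hu => (hf u (s hu)).continuousAt.continuousWithinAt)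
      fun u hu => hf u (s (Ioo_subset_Icc_self hu))
    have := hm (s (Ioo_subset_Icc_self hc)) hx hc.2.le
    rw [e, div_le_iff₀ (by linarith)] at this
    linarith

lemma trig_one {x y : ℝ} (hx : x ∈ Ioo (-(π / 2)) (π / 2)) (hy : y ∈ Ioo (-(π / 2)) (π / 2)) :
    exp (-(log (cos x) - log (cos y))) ≤ 1 - tan x * (y - x) := by
  have cx := cos_pos_of_mem_Ioo hx
  have cy := cos_pos_of_mem_Ioo hy
  have := tangent_le (f := fun u => -cos u) (f' := sin)
    (fun u _ => by simpa using (hasDerivAt_cos u).fun_neg)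
    (strictMonoOn_sin.monotoneOn.mono Ioo_subset_Icc_self) hx hy
  rw [neg_sub, exp_sub, exp_log cx, exp_log cy, div_le_iff₀ cx, tan_eq_sin_div_cos]
  field_simp
  linarith

lemma trig_two {x y : ℝ} (hx : x ∈ Ioo (-(π / 2)) (π / 2)) (hy : y ∈ Ioo (-(π / 2)) (π / 2)) :
    (y - x) ^ 2 / 2 ≤ log (cos x) - log (cos y) - tan x * (y - x) := by
  have d : ∀ u ∈ Ioo (-(π / 2)) (π / 2), HasDerivAt (fun u => tan u - u) (1 / cos u ^ 2 - 1) u :=
    fun u hu => (hasDerivAt_tan (cos_pos_of_mem_Ioo hu).ne').fun_sub (hasDerivAt_id u)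
  have := tangent_le (f := fun u => -log (cos u) - u ^ 2 / 2) (f' := fun u => tan u - u)
    (fun u hu => by
      have := ((hasDerivAt_cos u).log (cos_pos_of_mem_Ioo hu).ne').fun_neg.fun_sub
        ((hasDerivAt_pow 2 u).div_const 2)
      refine this.congr_deriv ?_
      rw [tan_eq_sin_div_cos]
      norm_num
      ring)
    (monotoneOn_of_hasDerivWithinAt_nonneg (convex_Ioo _ _)
      (fun u hu => (d u hu).continuousAt.continuousWithinAt)
      (fun u hu => (d u (interior_subset hu)).hasDerivWithinAt) fun u hu => by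
        have c := cos_pos_of_mem_Ioo (interior_subset hu)
        rw [sub_nonneg, le_div_iff₀ (by positivity), one_mul]
        exact cos_sq_le_one u) hx hy
  nlinarith

lemma trig_three {x y : ℝ} (hx : x ∈ Ioo (-(π / 2)) (π / 2)) (hy : y ∈ Ioo (-(π / 2)) (π / 2)) :
    (y - x) ^ 2 ≤ 10 := by
  have := pi_lt_d2
  have h : |y - x| ≤ 3.15 := abs_le.2 ⟨by linarith [hx.2, hy.1], by linarith [hx.1, hy.2]⟩
  rw [← sq_abs]
  nlinarith [abs_nonneg (y - x)]

/-- Localisation to the zero set of a nonpositive function. -/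
lemma exists_weight {X : Type*} [TopologicalSpace X] [T2Space X] {K : Set X} (hK : IsCompact K)
    {g ψ : X → ℝ} (hg : ContinuousOn g K) (hψ : ContinuousOn ψ K) (h0 : ∀ x ∈ K, ψ x ≤ 0)
    (h1 : ∀ x ∈ K, ψ x = 0 → g x < 0) :
    ∃ M c : ℝ, 0 < M ∧ 0 < c ∧ ∀ x ∈ K, g x + M * ψ x ≤ -c := by
  have key : ∃ M : ℝ, 0 < M ∧ ∀ x ∈ K, g x + M * ψ x < 0 := by
    have hK' : IsCompact (K ∩ g ⁻¹' Ici 0) := hK.of_isClosed_subset
      (hg.preimage_isClosed_of_isClosed hK.isClosed isClosed_Ici) inter_subset_left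
    rcases (K ∩ g ⁻¹' Ici 0).eq_empty_or_nonempty with he | hne
    · refine ⟨1, one_pos, fun x hx => ?_⟩
      have : g x < 0 := not_le.1 fun h => (he ▸ ⟨hx, h⟩ : x ∈ (∅ : Set X))
      linarith [h0 x hx]
    obtain ⟨y, hy, hm⟩ := hK'.exists_isMaxOn hne (hψ.mono inter_subset_left)
    obtain ⟨z, hz, hm'⟩ := hK'.exists_isMaxOn hne (hg.mono inter_subset_left)
    have a : ψ y < 0 := (h0 y hy.1).lt_of_ne fun h => (h1 y hy.1 h).not_ge hy.2
    have b : 0 ≤ g z := hz.2
    have c : 0 < (g z + 1) / -ψ y := div_pos (by linarith) (by linarith)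
    refine ⟨_, c, fun x hx => ?_⟩
    rcases lt_or_ge (g x) 0 with h | h
    · nlinarith [h0 x hx]
    · have d : ψ x ≤ ψ y := hm ⟨hx, h⟩
      have e : g x ≤ g z := hm' ⟨hx, h⟩
      have f : (g z + 1) / -ψ y * ψ y = -(g z + 1) := by field_simp [a.ne]
      nlinarith
  obtain ⟨M, hM, h⟩ := key
  rcases K.eq_empty_or_nonempty with rfl | hne
  · exact ⟨1, 1, one_pos, one_pos, by simp⟩
  obtain ⟨x, hx, hm⟩ := hK.exists_isMaxOn hne (hg.add (continuousOn_const.mul hψ (f := fun _ => M)))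
  exact ⟨M, -(g x + M * ψ x), hM, by linarith [h x hx], fun y hy => by simpa using hm hy⟩

end Pool.Agent.Lib.MP_eccbcf_an
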