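import Pool.Agent.Lib.MP_eccbcf_an.Defs

set_option autoImplicit false

/-! The closed domain has no basis of holomorphically convex neighbourhoods. -/

namespace Pool.Agent.Lib.MP_eccbcf_an

open Set Filter
open scoped ContDiff Topology

variable {g : ℕ → ℂ × ℂ → ℂ} {η e : ℕ → ℝ} {Ψ : ℂ × ℂ → ℝ}

namespace NS

/-- The centre of the disc fibre. -/
noncomputable def cen (w : ℂ) : ℂ := Complex.exp (Complex.I * sm w)

lemma continuous_cen : Continuous cen :=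
  Complex.continuous_exp.comp (continuous_const.mul
    (Complex.continuous_ofReal.comp contDiff_sm.continuous))

lemma norm_cen (w : ℂ) : ‖cen w‖ = 1 := norm_centre _

/-- The modulus of the real part of a square root. -/
noncomputable def kk (y : ℂ) : ℝ := √((‖y‖ + y.re) / 2)

lemma continuous_kk : Continuous kk := by unfold kk; fun_prop

lemma kk_sq (y : ℂ) : kk y ^ 2 = (‖y‖ + y.re) / 2 :=
  Real.sq_sqrt (by linarith [(abs_le.1 (Complex.abs_re_le_norm y)).1])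

lemma kk_nonneg (y : ℂ) : 0 ≤ kk y := Real.sqrt_nonneg _

lemma out_disc {y : ℂ} (h : 1 < ‖y + 1‖) : 0 < ‖y‖ ^ 2 + 2 * y.re := by
  have h1 : 1 < ‖y + 1‖ ^ 2 := by nlinarith
  rw [← Complex.normSq_eq_norm_sq, Complex.normSq_add, Complex.normSq_eq_norm_sq] at h1
  simp at h1
  linarith

lemma kk_pos {y : ℂ} (h : 1 < ‖y + 1‖) (h1 : ‖y‖ ≤ 1) : 0 < kk y := by
  have h2 := out_disc h
  refine Real.sqrt_pos.2 ?_
  nlinarith [norm_nonneg y]

lemma kk_base : kk (1 / 16) = 1 / 4 := by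
  rw [kk, Real.sqrt_eq_iff_mul_self_eq (by norm_num) (by norm_num)]
  norm_num

lemma kk_root {ξ : ℂ} (h : 0 < ξ.re) (b : ℝ) :
    kk (ξ ^ 2 * Real.exp (-b)) = ξ.re * Real.exp (-b / 2) := by
  have h1 : Real.exp (-b) = Real.exp (-b / 2) * Real.exp (-b / 2) := by
    rw [← Real.exp_add]; congr 1; ring
  rw [kk, Real.sqrt_eq_iff_mul_self_eq, norm_mul, norm_pow, Complex.norm_real,
    Real.norm_of_nonneg (Real.exp_pos _).le, Complex.re_mul_ofReal, ← Complex.normSq_eq_norm_sq,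
    Complex.normSq_apply, sq, Complex.mul_re, h1]
  · ring
  · linarith [(abs_le.1 (Complex.abs_re_le_norm (ξ ^ 2 * Real.exp (-b)))).1]
  · positivity

lemma exists_root {y : ℂ} (h : 0 < kk y) : ∃ ξ : ℂ, ξ ^ 2 = y ∧ ξ.re = kk y := by
  have h1 := kk_sq y
  have h2 : ‖y‖ ^ 2 = y.re * y.re + y.im * y.im := by
    rw [← Complex.normSq_eq_norm_sq, Complex.normSq_apply]
  refine ⟨⟨kk y, y.im / (2 * kk y)⟩, Complex.ext ?_ ?_, rfl⟩
  · simp only [sq, Complex.mul_re]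
    field_simp
    have h3 : ‖y‖ = 2 * kk y ^ 2 - y.re := by linarith
    rw [h3] at h2
    nlinarith
  · simp only [sq, Complex.mul_im]
    field_simp
    ring

/-- All closed unit discs over a suitable graph lie in a given neighbourhood of the closure. -/
lemma discs (hB : Base g) (h : Psi g η e Ψ) {V : Set (Fin 3 → ℂ)} (hV : IsOpen V)
    (hc : closure {q | rho Ψ q < 0} ⊆ V) :
    ∃ (A : Set ℂ) (f : ℂ → ℂ) (φ : ℂ → ℝ), IsCompact A ∧ Sub A φ ∧
      ∀ w ∈ A, AnalyticAt ℂ f w ∧ (w, f w) ∈ box ∧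
        ∀ y : ℂ, ‖y + 1‖ ≤ 1 → ![-cen w * y, w, f w] ∈ V := by
  obtain ⟨δ, hδ, hT⟩ := ((isCompact_cl h).of_isClosed_subset isClosed_closure
    (closure_dom h)).exists_thickening_subset_open hV hc
  obtain ⟨d, hd0, hd1, hd2⟩ : ∃ d : ℝ, 0 < d ∧ d ≤ 1 ∧ d < δ :=
    ⟨min 1 (δ / 2), by positivity, min_le_left _ _, (min_le_right _ _).trans_lt (by linarith)⟩
  obtain ⟨N, hN⟩ := h.tail (d / 2) (by positivity)
  obtain ⟨A, f, φ, hA, hS, hf⟩ := hB.surf N
  refine ⟨A, f, φ, hA, hS, fun w hw => ?_⟩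
  have hb : (w, f w) ∈ box := by
    have := (hf w hw).2 0 (Nat.zero_le N)
    change sm w ^ 2 + ‖f w‖ ^ 2 ≤ 43
    nlinarith [sq_nonneg ‖g 0 (w, f w)‖]
  have hΨ : Ψ (w, f w) ≤ d / 2 := hN _ hb fun k hk =>
    mul_nonpos_of_nonneg_of_nonpos (h.η_pos k).le (by linarith [(hf w hw).2 k hk])
  refine ⟨(hf w hw).1, hb, fun y hy => hT (Metric.mem_thickening_iff.2
    ⟨![cen w - cen w * ((1 - d : ℝ) * (y + 1)), w, f w], subset_closure ?_, ?_⟩)⟩
  · change ‖cen w - cen w * ((1 - d : ℝ) * (y + 1)) - cen w‖ ^ 2 - 1 + Ψ (w, f w) < 0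
    rw [sub_sub_cancel_left, norm_neg, norm_mul, norm_cen, one_mul, norm_mul, Complex.norm_real,
      Real.norm_of_nonneg (by linarith)]
    have h1 : (1 - d) * ‖y + 1‖ ≤ 1 - d := mul_le_of_le_one_right (by linarith) hy
    have h2 : 0 ≤ (1 - d) * ‖y + 1‖ := mul_nonneg (by linarith) (norm_nonneg _)
    nlinarith
  · refine (dist_pi_lt_iff hδ).2 fun i => ?_
    fin_cases i
    · change dist (-cen w * y) (cen w - cen w * ((1 - d : ℝ) * (y + 1))) < δ
      rw [dist_eq_norm, show -cen w * y - (cen w - cen w * ((1 - d : ℝ) * (y + 1))) =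
        -(cen w * (d * (y + 1))) by push_cast; ring, norm_neg, norm_mul, norm_cen, one_mul,
        norm_mul, Complex.norm_real, Real.norm_of_nonneg hd0.le]
      exact (mul_le_of_le_one_right hd0.le hy).trans_lt hd2
    · simpa using hδ
    · simpa using hδ

/-- The continuity principle for a family of analytic discs. -/
lemma cont_principle {V : Set (Fin 3 → ℂ)} (hV : IsOpen V) (hH : HolConvex V)
    {Γ : ℂ × ℝ → Fin 3 → ℂ} {r : ℝ} (hr : 0 < r)
    (hc : ∀ p : ℂ × ℝ, ‖p.1‖ ≤ r → ContinuousAt Γ p)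
    (hd : ∀ (t : ℂ) (σ : ℝ), ‖t‖ ≤ r → DifferentiableAt ℂ (fun t => Γ (t, σ)) t)
    (hm : ∀ (t : ℂ) (σ : ℝ), ‖t‖ ≤ r → 0 ≤ σ → σ ≤ r → t ≠ 0 ∨ σ ≠ 0 → Γ (t, σ) ∈ V) :
    Γ (0, 0) ∈ V := by
  have hK : IsCompact (Γ '' (Metric.sphere 0 r ×ˢ Icc 0 r)) :=
    ((isCompact_sphere 0 r).prod isCompact_Icc).image_of_continuousOn fun p hp =>
      (hc p (mem_sphere_zero_iff_norm.1 hp.1).le).continuousWithinAt
  have hKV : Γ '' (Metric.sphere 0 r ×ˢ Icc 0 r) ⊆ V := by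
    rintro _ ⟨⟨t, σ⟩, ⟨h1, h2⟩, rfl⟩
    have h3 : ‖t‖ = r := mem_sphere_zero_iff_norm.1 h1
    exact hm t σ h3.le h2.1 h2.2 (Or.inl (norm_pos_iff.1 (h3 ▸ hr)))
  have ht : Tendsto (fun σ : ℝ => Γ (0, σ)) (𝓝[>] 0) (𝓝 (Γ (0, 0))) :=
    ((hc (0, 0) (by simpa using hr.le)).tendsto.comp
      (Continuous.prodMk_right (0 : ℂ)).continuousAt.tendsto).mono_left nhdsWithin_le_nhds
  refine ((hH _ hKV hK).isClosed.mem_of_tendsto ht ?_).1
  filter_upwards [Ioc_mem_nhdsGT hr] with σ hσ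
  refine ⟨hm 0 σ (by simpa using hr.le) hσ.1.le hσ.2 (Or.inr hσ.1.ne'), fun F hF c hb => ?_⟩
  refine Complex.norm_le_of_forall_mem_frontier_norm_le (f := fun t => F (Γ (t, σ)))
    (U := Metric.ball 0 r) Metric.isBounded_ball (DifferentiableOn.diffContOnCl fun t ht => ?_)
    (fun t ht => ?_) (subset_closure (Metric.mem_ball_self hr))
  · rw [closure_ball _ hr.ne'] at ht
    have h1 : ‖t‖ ≤ r := mem_closedBall_zero_iff.1 ht
    exact ((hF.differentiableAt (hV.mem_nhds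
      (hm t σ h1 hσ.1.le hσ.2 (Or.inr hσ.1.ne')))).comp t (hd t σ h1)).differentiableWithinAt
  · rw [frontier_ball _ hr.ne'] at ht
    exact hb _ ⟨(t, σ), ⟨ht, hσ.1.le, hσ.2⟩, rfl⟩

lemma core {V : Set (Fin 3 → ℂ)} (hV : IsOpen V) {A : Set ℂ} {f : ℂ → ℂ} {φ : ℂ → ℝ}
    (hA : IsCompact A) (hS : Sub A φ)
    (hf : ∀ w ∈ A, AnalyticAt ℂ f w ∧ (w, f w) ∈ box ∧
      ∀ y : ℂ, ‖y + 1‖ ≤ 1 → ![-cen w * y, w, f w] ∈ V)
    (hU : ∀ w u : ℂ, ![-cen w * (1 / 16), w, u] ∉ V) : ¬ HolConvex V := by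
  intro hH
  let G : ℂ × ℂ → Fin 3 → ℂ := fun p => ![-cen p.2 * p.1, p.2, f p.2]
  have hG : ContinuousOn G (Metric.closedBall 0 1 ×ˢ A) := by
    refine continuousOn_pi.2 fun i => ?_
    fin_cases i
    · exact ((continuous_cen.comp continuous_snd).neg.mul continuous_fst).continuousOn
    · exact continuous_snd.continuousOn
    · exact fun p hp => ((hf _ hp.2).1.continuousAt.comp continuousAt_snd).continuousWithinAt
  have hC := (isCompact_closedBall (0 : ℂ) 1).prod hA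
  have hF : IsCompact (Metric.closedBall 0 1 ×ˢ A ∩ G ⁻¹' Vᶜ) :=
    hC.of_isClosed_subset (hG.preimage_isClosed_of_isClosed hC.isClosed hV.isClosed_compl)
      inter_subset_left
  have hout : ∀ p ∈ Metric.closedBall 0 1 ×ˢ A ∩ G ⁻¹' Vᶜ, 1 < ‖p.1 + 1‖ := fun p hp =>
    not_le.1 fun hy => hp.2 ((hf _ hp.1.2).2.2 _ hy)
  have hk : ∀ p ∈ Metric.closedBall 0 1 ×ˢ A ∩ G ⁻¹' Vᶜ, 0 < kk p.1 := fun p hp =>
    kk_pos (hout p hp) (mem_closedBall_zero_iff.1 hp.1.1)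
  have hb : ∀ w ∈ A, ((1 / 16 : ℂ), w) ∈ Metric.closedBall 0 1 ×ˢ A ∩ G ⁻¹' Vᶜ := fun w hw =>
    ⟨⟨mem_closedBall_zero_iff.2 (by norm_num), hw⟩, hU w _⟩
  obtain ⟨w₁, hw₁, hφ₁⟩ := hS.pos
  obtain ⟨⟨y₀, w₀⟩, h0, hmax⟩ := hF.exists_isMaxOn ⟨_, hb w₁ hw₁⟩
    (f := fun p => φ p.2 / kk p.1)
    ((hS.cont.comp continuous_snd.continuousOn fun p hp => hp.1.2).div
      (continuous_kk.comp continuous_fst).continuousOn fun p hp => (hk p hp).ne')
  have hk0 : 0 < kk y₀ := hk _ h0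
  obtain ⟨M, hM⟩ : ∃ M, M = φ w₀ / kk y₀ := ⟨_, rfl⟩
  have hle : ∀ p ∈ Metric.closedBall 0 1 ×ˢ A ∩ G ⁻¹' Vᶜ, φ p.2 ≤ M * kk p.1 := fun p hp =>
    (div_le_iff₀ (hk p hp)).1 (hM ▸ hmax hp)
  have hM0 : 0 < M := by
    have := hle _ (hb w₁ hw₁)
    rw [kk_base] at this
    change φ w₁ ≤ _ at this
    linarith
  have hφ0 : φ w₀ = M * kk y₀ := by rw [hM, div_mul_cancel₀ _ hk0.ne']
  have hw₀ : w₀ ∈ A := h0.1.2
  have hy₀ : ‖y₀‖ < 1 := by
    have h1 := hle _ (hb w₀ hw₀)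
    rw [kk_base] at h1
    change φ w₀ ≤ _ at h1
    have h2 : kk y₀ ≤ 1 / 4 := le_of_mul_le_mul_left (hφ0 ▸ h1) hM0
    have h3 := out_disc (hout _ h0)
    have h4 := kk_sq y₀
    have h5 : ‖y₀‖ ≤ 1 := mem_closedBall_zero_iff.1 h0.1.1
    change 0 < ‖y₀‖ ^ 2 + 2 * y₀.re at h3
    by_contra h6
    have h7 : ‖y₀‖ = 1 := le_antisymm h5 (not_lt.1 h6)
    rw [h7] at h3 h4
    nlinarith
  obtain ⟨hAn, P, c, hP, hc, hP0, hin⟩ := hS.loc w₀ hw₀ (hφ0 ▸ mul_pos hM0 hk0)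
  obtain ⟨ξ₀, hξ, hξ'⟩ := exists_root hk0
  let ξ : ℂ × ℝ → ℂ := fun p => ξ₀ + (P p.1 - P 0) / M - p.2
  have hξc : ∀ p : ℂ × ℝ, AnalyticAt ℂ P p.1 → ContinuousAt ξ p := fun p hp =>
    (continuousAt_const.add (((hp.continuousAt.comp continuousAt_fst).sub
      continuousAt_const).div_const _)).sub
      (Complex.continuous_ofReal.comp continuous_snd).continuousAt
  have hξ0 : ξ (0, 0) = ξ₀ := by simp [ξ]
  have hξr : ∀ p : ℂ × ℝ, M * (ξ p).re = (P p.1).re - M * p.2 := fun p => by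
    simp only [ξ, Complex.sub_re, Complex.add_re, Complex.div_ofReal_re, Complex.ofReal_re, hξ',
      hP0, hφ0]
    field_simp
    ring
  have he : Continuous fun t : ℂ => w₀ * Complex.exp t := by fun_prop
  have e1 : ∀ᶠ t in 𝓝 (0 : ℂ), w₀ * Complex.exp t ∈ A :=
    he.continuousAt.eventually_mem (by simpa using hAn)
  have e2 : ∀ᶠ p in 𝓝 ((0, 0) : ℂ × ℝ), 0 < (ξ p).re :=
    (Complex.continuous_re.continuousAt.comp (hξc (0, 0) hP)).eventually_const_lt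
      (by simpa [hξ0, hξ'] using hk0)
  have e3 : ∀ᶠ p in 𝓝 ((0, 0) : ℂ × ℝ), ‖ξ p ^ 2 * Real.exp (-p.1.im)‖ < 1 :=
    (((hξc (0, 0) hP).pow 2).mul (by fun_prop :
      Continuous fun p : ℂ × ℝ => (Real.exp (-p.1.im) : ℂ)).continuousAt).norm.eventually_lt_const
      (by simpa [hξ0, hξ] using hy₀)
  obtain ⟨ε, hε, h1⟩ := Metric.eventually_nhds_iff.1 ((e1.and hin).and hP.eventually_analyticAt)
  obtain ⟨ε', hε', h2⟩ := Metric.eventually_nhds_iff.1 (e2.and e3)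
  obtain ⟨r, hr, hr1, hr2⟩ : ∃ r : ℝ, 0 < r ∧ r < ε ∧ r < ε' :=
    ⟨min ε ε' / 2, by positivity, by linarith [min_le_left ε ε'], by linarith [min_le_right ε ε']⟩
  replace h1 := fun t (ht : ‖t‖ ≤ r) => h1 (y := t) (by simpa using ht.trans_lt hr1)
  refine h0.2 ?_
  have key := cont_principle hV hH (r := r) (Γ := fun p =>
    ![-cen w₀ * ξ p ^ 2 * Complex.exp (Complex.I * p.1), w₀ * Complex.exp p.1,
      f (w₀ * Complex.exp p.1)]) hr (fun p hp => ?_) (fun t σ ht => ?_) fun t σ ht hσ hσ' hne => ?_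
  · simpa [hξ0, hξ, G] using key
  · refine continuousAt_pi.2 fun i => ?_
    fin_cases i
    · exact (continuousAt_const.mul ((hξc p (h1 _ hp).2).pow 2)).mul (by fun_prop)
    · exact (he.comp continuous_fst).continuousAt
    · exact (hf _ (h1 _ hp).1.1).1.continuousAt.comp (f := fun p : ℂ × ℝ => w₀ * Complex.exp p.1)
        (he.comp continuous_fst).continuousAt
  · refine differentiableAt_pi.2 fun i => ?_
    have hPd := (h1 _ ht).2.differentiableAt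
    fin_cases i
    · change DifferentiableAt ℂ (fun t => -cen w₀ * (ξ₀ + (P t - P 0) / M - σ) ^ 2 *
        Complex.exp (Complex.I * t)) t
      fun_prop
    · change DifferentiableAt ℂ (fun t => w₀ * Complex.exp t) t
      fun_prop
    · exact (hf _ (h1 _ ht).1.1).1.differentiableAt.comp (f := fun t => w₀ * Complex.exp t) t
        (by fun_prop)
  · by_contra hn
    obtain ⟨⟨a1, a2⟩, -⟩ := h1 t ht
    obtain ⟨a3, a4⟩ := h2 (y := (t, σ)) (by
      rw [Prod.dist_eq, max_lt_iff]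
      exact ⟨by simpa using ht.trans_lt hr2, by simpa [abs_of_nonneg hσ] using hσ'.trans_lt hr2⟩)
    have hs : sm (w₀ * Complex.exp t) = sm w₀ + t.re := by
      have b0 := (hf _ hw₀).2.1
      rw [show sm (w₀ * Complex.exp t) = _ from box_log (hf _ a1).2.1,
        show sm w₀ = _ from box_log b0, norm_mul, Complex.norm_exp,
        Real.log_mul (norm_ne_zero_iff.2 (box_ne b0)) (Real.exp_ne_zero _), Real.log_exp]
    have hz : -cen (w₀ * Complex.exp t) * (ξ (t, σ) ^ 2 * Real.exp (-t.im)) =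
        -cen w₀ * ξ (t, σ) ^ 2 * Complex.exp (Complex.I * t) := by
      have : Complex.I * t = Complex.I * t.re + (-t.im : ℝ) := by
        apply Complex.ext <;> simp
      rw [this, cen, cen, hs, Complex.ofReal_add, mul_add, Complex.exp_add, Complex.exp_add,
        Complex.ofReal_exp]
      ring
    have a5 := hle (ξ (t, σ) ^ 2 * Real.exp (-t.im), w₀ * Complex.exp t)
      ⟨⟨mem_closedBall_zero_iff.2 a4.le, a1⟩, fun hv => hn (by
        change ![_, _, _] ∈ V at hv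
        rwa [hz] at hv)⟩
    rw [kk_root a3, ← mul_assoc, hξr] at a5
    have a6 := mul_le_mul_of_nonneg_left a5 (Real.exp_pos (t.im / 2)).le
    have a7 : Real.exp (t.im / 2) * Real.exp (-t.im / 2) = 1 := by
      rw [← Real.exp_add, ← Real.exp_zero]; congr 1; ring
    have a8 : c * ‖t‖ ^ 2 + M * σ ≤ 0 := by
      change _ ≤ Real.exp (t.im / 2) * (((P t).re - M * σ) * Real.exp (-t.im / 2)) at a6
      rw [mul_left_comm, a7, mul_one] at a6
      change Real.exp (t.im / 2) * φ (w₀ * Complex.exp t) ≤ _ at a6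
      linarith
    have a9 : 0 ≤ c * ‖t‖ ^ 2 := by positivity
    have a10 : 0 ≤ M * σ := mul_nonneg hM0.le hσ
    rcases hne with hne | hne
    · have : 0 < c * ‖t‖ ^ 2 := by positivity
      linarith
    · have : 0 < M * σ := mul_pos hM0 (lt_of_le_of_ne hσ hne.symm)
      linarith

end NS

theorem no_stein (hB : Base g) (h : Psi g η e Ψ) :
    ∃ U : Set (Fin 3 → ℂ), IsOpen U ∧ closure {q | rho Ψ q < 0} ⊆ U ∧
      ∀ V : Set (Fin 3 → ℂ), IsOpen V → closure {q | rho Ψ q < 0} ⊆ V → V ⊆ U →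
        ¬ HolConvex V := by
  refine ⟨{q | q 0 ≠ -NS.cen (q 1) * (1 / 16)}, isOpen_ne_fun (continuous_apply 0)
    ((NS.continuous_cen.comp (continuous_apply 1)).neg.mul continuous_const), fun q hq h0 => ?_,
    fun V hV hc hU => ?_⟩
  · have hn : q 0 ≠ 0 := by
      rw [h0]
      exact mul_ne_zero (neg_ne_zero.2 (Complex.exp_ne_zero _)) (by norm_num)
    have h1 := re_pos h (closure_dom h hq) hn
    rw [h0, NS.cen, mul_right_comm, neg_mul, ← Complex.exp_add, add_neg_cancel,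
      Complex.exp_zero] at h1
    norm_num at h1
  · obtain ⟨A, f, φ, hA, hS, hf⟩ := NS.discs hB h hV hc
    exact NS.core hV hA hS hf fun w u hv => hU hv rfl

end Pool.Agent.Lib.MP_eccbcf_an
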