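import Pool.Agent.Lib.MP_eccbcf_an.Ineq

set_option autoImplicit false

/-! The smooth function on the base whose zero set carries the weakly pseudoconvex points. -/

namespace Pool.Agent.Lib.MP_eccbcf_an

open Real Set Filter
open scoped ContDiff Topology

lemma exists_small {F : Type*} [NormedAddCommGroup F] [NormedSpace ℝ F] {φ : F → ℝ}
    (h : ContDiff ℝ ∞ φ) (hc : HasCompactSupport φ) (n : ℕ) {δ : ℝ} (hδ : 0 < δ) :
    ∃ r : ℝ, 0 < r ∧ ∀ i ≤ n, ∀ x, ‖iteratedFDeriv ℝ i (r • φ) x‖ ≤ δ := by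
  have : ∀ i, ∃ R, ∀ x, ‖iteratedFDeriv ℝ i φ x‖ ≤ R := fun i => by
    obtain ⟨R, hR⟩ := (h.continuous_iteratedFDeriv (m := i)
      (mod_cast le_top)).norm.bddAbove_range_of_hasCompactSupport
      (HasCompactSupport.comp_left (hc.iteratedFDeriv i) norm_zero)
    exact ⟨R, fun x => hR (mem_range_self _)⟩
  choose R hR using this
  obtain ⟨M, hM⟩ := ((finite_le_nat n).image R).bddAbove
  have h1 : 0 < max M 1 := lt_max_of_lt_right one_pos
  refine ⟨δ / max M 1, by positivity, fun i hi x => ?_⟩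
  rw [iteratedFDeriv_const_smul_apply (h.contDiffAt.of_le (mod_cast le_top)), norm_smul,
    Real.norm_of_nonneg (by positivity), div_mul_eq_mul_div, div_le_iff₀ h1]
  gcongr
  exact (hR i x).trans ((hM ⟨i, hi, rfl⟩).trans (le_max_left _ _))

lemma exists_series {F : Type*} [NormedAddCommGroup F] [NormedSpace ℝ F] {φ : ℕ → F → ℝ}
    (h : ∀ k, ContDiff ℝ ∞ (φ k)) (hc : ∀ k, HasCompactSupport (φ k)) {δ : ℝ} (hδ : 0 < δ) :
    ∃ (e : ℕ → ℝ) (S : F → ℝ), (∀ k, 0 < e k) ∧ ContDiff ℝ ∞ S ∧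
      (∀ x, HasSum (fun k => e k * φ k x) (S x)) ∧ (∀ k x, |e k * φ k x| ≤ δ / 2 / 2 ^ k) ∧
      ∀ x y, S x - S y ≤ δ * ‖x - y‖ := by
  choose e he hb using fun k => exists_small (h k) (hc k) (k + 1) (δ := δ / 2 / 2 ^ k)
    (by positivity)
  have hs := hasSum_geometric_two' δ
  have h0 : ∀ k x, |e k * φ k x| ≤ δ / 2 / 2 ^ k := fun k x => by
    simpa using hb k 0 (Nat.zero_le _) x
  have S : ∀ x, Summable fun k => e k * φ k x := fun x => .of_norm_bounded hs.summable (h0 · x)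
  refine ⟨e, fun x => ∑' k, (e k • φ k) x, he, ?_, fun x => (S x).hasSum, h0, fun x y => ?_⟩
  · refine contDiff_tsum_of_eventually (fun k => (h k).const_smul (e k))
      (fun _ _ => hs.summable) fun i _ => ?_
    simp only [Nat.cofinite_eq_atTop, eventually_atTop]
    exact ⟨i, fun n hn x => hb _ _ (by omega) _⟩
  · refine hasSum_le (fun k => ?_) ((S x).hasSum.sub (S y).hasSum) (hs.mul_right _)
    refine (le_abs_self _).trans (convex_univ.norm_image_sub_le_of_norm_fderiv_le (𝕜 := ℝ)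
      (f := e k • φ k) (fun z _ => ?_) (fun z _ => ?_) (mem_univ y) (mem_univ x))
    · exact (((h k).const_smul (e k)).differentiable (by simp)).differentiableAt
    · rw [← norm_iteratedFDeriv_one]
      exact hb k 1 (by omega) z

/-- A smooth function that equals `log ‖w‖` away from the origin. -/
noncomputable def sm (w : ℂ) : ℝ :=
  log (‖w‖ ^ 2 + exp (-16) * expNegInvGlue (exp (-16) - ‖w‖ ^ 2)) / 2

lemma sm_arg_pos (w : ℂ) : 0 < ‖w‖ ^ 2 + exp (-16) * expNegInvGlue (exp (-16) - ‖w‖ ^ 2) := by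
  have h1 := expNegInvGlue.nonneg (exp (-16) - ‖w‖ ^ 2)
  rcases eq_or_ne w 0 with rfl | h
  · have := expNegInvGlue.pos_of_pos (exp_pos (-16))
    simp only [norm_zero, ne_eq, OfNat.ofNat_ne_zero, not_false_eq_true, zero_pow, sub_zero,
      zero_add]
    positivity
  · positivity

lemma contDiff_sm : ContDiff ℝ ∞ sm := by
  have h : ContDiff ℝ ∞ fun w : ℂ => ‖w‖ ^ 2 := contDiff_norm_sq ℝ
  exact ((h.add (contDiff_const.mul (expNegInvGlue.contDiff.comp (contDiff_const.sub h)))).log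
    fun w => (sm_arg_pos w).ne').div_const 2

lemma sm_eq {w : ℂ} (h : exp (-8) ≤ ‖w‖) : sm w = log ‖w‖ := by
  have : exp (-16) ≤ ‖w‖ ^ 2 := by
    rw [show exp (-16) = exp (-8) ^ 2 by rw [← exp_nat_mul]; norm_num]
    gcongr
  rw [sm, expNegInvGlue.zero_of_nonpos (by linarith), mul_zero, add_zero, log_pow]
  norm_num

lemma le_norm_of_sm {w : ℂ} (h : -7 ≤ sm w) : exp (-7) ≤ ‖w‖ := by
  rcases le_or_gt (exp (-8)) ‖w‖ with h1 | h1
  · rw [sm_eq h1] at h
    exact (le_log_iff_exp_le ((exp_pos _).trans_le h1)).1 h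
  · exfalso
    have e : exp (-16) = exp (-8) ^ 2 := by rw [← exp_nat_mul]; norm_num
    have h2 : ‖w‖ ^ 2 < exp (-16) := by rw [e]; gcongr
    have h3 : expNegInvGlue (exp (-16) - ‖w‖ ^ 2) ≤ 1 := by
      rw [glue_pos (by linarith), exp_le_one_iff, neg_nonpos, inv_nonneg]
      linarith
    have h4 : exp (-16) * 2 ≤ exp (-16 + 1) := by
      rw [exp_add]
      gcongr
      linarith [add_one_le_exp 1]
    have := log_le_log (sm_arg_pos w) (y := exp (-16 + 1)) (by nlinarith [exp_pos (-16)])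
    rw [log_exp] at this
    unfold sm at h
    linarith

/-- A compact region that contains the base of the domain. -/
def box : Set (ℂ × ℂ) := {x | sm x.1 ^ 2 + ‖x.2‖ ^ 2 ≤ 43}

lemma box_sm {x : ℂ × ℂ} (h : x ∈ box) : |sm x.1| ≤ 7 := by
  have : sm x.1 ^ 2 + ‖x.2‖ ^ 2 ≤ 43 := h
  exact abs_le_of_sq_le_sq' (by nlinarith [sq_nonneg ‖x.2‖]) (by norm_num) |> abs_le.2

lemma box_ge {x : ℂ × ℂ} (h : x ∈ box) : exp (-7) ≤ ‖x.1‖ := le_norm_of_sm (abs_le.1 (box_sm h)).1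

lemma box_log {x : ℂ × ℂ} (h : x ∈ box) : sm x.1 = log ‖x.1‖ :=
  sm_eq ((exp_le_exp.2 (by norm_num)).trans (box_ge h))

lemma box_ne {x : ℂ × ℂ} (h : x ∈ box) : x.1 ≠ 0 :=
  norm_pos_iff.1 ((exp_pos _).trans_le (box_ge h))

lemma box_norm {x : ℂ × ℂ} (h : x ∈ box) : ‖x.1‖ = exp (sm x.1) := by
  rw [box_log h, exp_log (norm_pos_iff.2 (box_ne h))]

lemma box_le {x : ℂ × ℂ} (h : x ∈ box) : ‖x‖ ≤ exp 7 := by
  have h1 : sm x.1 ^ 2 + ‖x.2‖ ^ 2 ≤ 43 := h
  refine max_le (box_norm h ▸ exp_le_exp.2 (abs_le.1 (box_sm h)).2) ?_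
  have := add_one_le_exp 7
  nlinarith [sq_nonneg (sm x.1), norm_nonneg x.2]

/-- The argument of one flat term. -/
noncomputable def vv (η : ℝ) (g : ℂ × ℂ → ℂ) (x : ℂ × ℂ) : ℝ :=
  η * (‖g x‖ ^ 2 + sm x.1 ^ 2 + ‖x.2‖ ^ 2 - 42)

lemma contDiff_vv (η : ℝ) {g : ℂ × ℂ → ℂ} (hg : ContDiff ℂ ∞ g) : ContDiff ℝ ∞ (vv η g) :=
  contDiff_const.mul (((((hg.restrict_scalars ℝ).norm_sq ℝ).add
    ((contDiff_sm.comp contDiff_fst).pow 2)).add (contDiff_snd.norm_sq ℝ)).sub contDiff_const)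

/-- Radial contraction onto the unit circle. -/
noncomputable def ray (x : ℂ × ℂ) (t : ℝ) : ℂ × ℂ := (x.1 * exp ((t - 1) * sm x.1), t * x.2)

lemma sm_ray {x : ℂ × ℂ} (h : x ∈ box) {t : ℝ} (ht : t ∈ Icc (0 : ℝ) 1) :
    sm (ray x t).1 = t * sm x.1 := by
  have e : ‖(ray x t).1‖ = exp (t * sm x.1) := by
    rw [ray, norm_mul, Complex.norm_real, Real.norm_of_nonneg (exp_pos _).le, box_norm h, ← exp_add]
    congr 1
    ring
  have := abs_le.1 (box_sm h)
  rw [sm_eq, e, log_exp]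
  rw [e, exp_le_exp]
  nlinarith [ht.1, ht.2]

lemma sq_ray {x : ℂ × ℂ} (h : x ∈ box) {t : ℝ} (ht : t ∈ Icc (0 : ℝ) 1) :
    sm (ray x t).1 ^ 2 + ‖(ray x t).2‖ ^ 2 = t ^ 2 * (sm x.1 ^ 2 + ‖x.2‖ ^ 2) := by
  rw [sm_ray h ht, ray, norm_mul, Complex.norm_real, Real.norm_of_nonneg ht.1]
  ring

lemma dist_ray {x : ℂ × ℂ} (h : x ∈ box) {t : ℝ} (ht : t ∈ Icc (0 : ℝ) 1) :
    ‖ray x t - x‖ ≤ 7 * exp 7 * exp 7 * (1 - t) := by
  have h7 : 1 ≤ exp 7 := one_le_exp (by norm_num)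
  have h1 : 0 ≤ 1 - t := by linarith [ht.2]
  have b := box_le h
  refine max_le ?_ ?_
  · have a := abs_le.1 (box_sm h)
    set y := (t - 1) * sm x.1 with hy
    have y1 : |y| ≤ 7 * (1 - t) := abs_le.2 ⟨by nlinarith, by nlinarith⟩
    have y2 : |exp y - 1| ≤ 7 * (1 - t) * exp 7 := by
      have y3 := abs_le.1 y1
      have e1 := add_one_le_exp y
      have e2 := add_one_le_exp (-y)
      have e3 : exp y ≤ exp 7 := exp_le_exp.2 (by nlinarith [ht.1])
      have e4 : exp (-y) * exp y = 1 := by rw [← exp_add]; simp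
      have e5 := exp_pos y
      refine abs_le.2 ⟨by nlinarith, ?_⟩
      have : exp y - 1 ≤ y * exp y := by nlinarith
      nlinarith
    have : (ray x t - x).1 = x.1 * ((exp y - 1 : ℝ) : ℂ) := by
      simp only [ray, Prod.fst_sub, ← hy]
      push_cast
      ring
    rw [this, norm_mul, Complex.norm_real, Real.norm_eq_abs]
    calc _ ≤ exp 7 * (7 * (1 - t) * exp 7) := by gcongr; exact (norm_fst_le x).trans b
      _ = _ := by ring
  · have : (ray x t - x).2 = ((t - 1 : ℝ) : ℂ) * x.2 := by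
      simp only [ray, Prod.snd_sub]
      push_cast
      ring
    rw [this, norm_mul, Complex.norm_real, Real.norm_eq_abs, abs_sub_comm, abs_of_nonneg h1]
    have := (norm_snd_le x).trans b
    nlinarith [mul_nonneg h1 (norm_nonneg x.2), mul_nonneg h1 (exp_pos 7).le]

/-- The properties of the function on the base. -/
structure Psi (g : ℕ → ℂ × ℂ → ℂ) (η e : ℕ → ℝ) (Ψ : ℂ × ℂ → ℝ) : Prop where
  smooth : ContDiff ℝ ∞ Ψ
  nonneg : ∀ x, 0 ≤ Ψ x
  η_pos : ∀ k, 0 < η k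
  e_pos : ∀ k, 0 < e k
  mem : ∀ x, Ψ x ≤ 1 → x ∈ box
  sum : ∀ x ∈ box, HasSum (fun k => e k * expNegInvGlue (vv (η k) (g k) x)) (Ψ x)
  small : ∀ x, Ψ x ≤ 1 → ∀ k, vv (η k) (g k) x ≤ 1 / 200 ∧
    (0 < vv (η k) (g k) x → vv (η k) (g k) x ^ 2 ≤ η k)
  tail : ∀ ε, 0 < ε → ∃ N, ∀ x ∈ box, (∀ k ≤ N, vv (η k) (g k) x ≤ 0) → Ψ x ≤ ε
  ray : ∀ x, Ψ x ≤ 1 → ∀ t ∈ Icc (0 : ℝ) 1, Ψ (ray x t) ≤ max (3 / 4) (Ψ x - (1 - t))
  core : ∀ w : ℂ, ‖w‖ = 1 → Ψ (w, 0) < 1

theorem exists_psi {g : ℕ → ℂ × ℂ → ℂ} (hg : ∀ k, ContDiff ℂ ∞ (g k)) (h0 : g 0 = 0) :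
    ∃ η e Ψ, Psi g η e Ψ := by
  have hC : ∀ k, ∃ C, 1 ≤ C ∧ ∀ x ∈ box, ‖g k x‖ ^ 2 + 1 ≤ C := fun k => by
    obtain ⟨C, hC⟩ := (isCompact_closedBall (0 : ℂ × ℂ) (exp 7)).exists_bound_of_continuousOn
      (hg k).continuous.continuousOn
    refine ⟨C ^ 2 + 1, by nlinarith [sq_nonneg C], fun x hx => ?_⟩
    have := hC x (mem_closedBall_zero_iff.2 (box_le hx))
    gcongr
  choose C hC1 hC using hC
  let χ : ContDiffBump (0 : ℂ × ℂ) := ⟨exp 7, exp 7 + 1, exp_pos _, lt_add_one _⟩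
  let η : ℕ → ℝ := fun k => Nat.casesOn k 1 fun k => 1 / (200 * C (k + 1) ^ 2)
  have hη : ∀ k, 0 < η k := fun k => by
    cases k with
    | zero => exact one_pos
    | succ k => have := hC1 (k + 1); simp only [η]; positivity
  have h7 : 1 ≤ exp 7 := one_le_exp (by norm_num)
  obtain ⟨e, S, he, hS, hs, hb, hL⟩ := exists_series
    (φ := fun k x => χ x * expNegInvGlue (vv (η (k + 1)) (g (k + 1)) x))
    (fun k => χ.contDiff.mul (expNegInvGlue.contDiff.comp (contDiff_vv _ (hg _))))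
    (fun k => χ.hasCompactSupport.mul_right) (δ := 1 / (7 * exp 7 * exp 7)) (by positivity)
  set δ := 1 / (7 * exp 7 * exp 7) with hδ
  have δ0 : 0 < δ := by positivity
  have δ1 : δ ≤ 1 / 4 := one_div_le_one_div_of_le (by norm_num) (by nlinarith)
  have p : ∀ k x, 0 ≤ e k * (χ x * expNegInvGlue (vv (η (k + 1)) (g (k + 1)) x)) := fun k x =>
    mul_nonneg (he k).le (mul_nonneg χ.nonneg (expNegInvGlue.nonneg _))
  have S0 : ∀ x, 0 ≤ S x := fun x => (hs x).nonneg (p · x)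
  have S1 : ∀ x, S x ≤ δ := fun x =>
    hasSum_le (fun k => (le_abs_self _).trans (hb k x)) (hs x) (hasSum_geometric_two' δ)
  have v0 : ∀ x, vv (η 0) (g 0) x = sm x.1 ^ 2 + ‖x.2‖ ^ 2 - 42 := fun x => by simp [vv, η, h0]
  have T0 : ∀ x, exp 200 * expNegInvGlue (vv (η 0) (g 0) x) + S x ≤ 1 →
      vv (η 0) (g 0) x ≤ 1 / 200 := fun x hx => by
    by_contra hv
    have hv := not_le.1 hv
    have h1 : 0 < vv (η 0) (g 0) x := by linarith
    rw [glue_pos h1, ← exp_add] at hx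
    have : (vv (η 0) (g 0) x)⁻¹ < 200 := by rw [inv_lt_comm₀ h1 (by norm_num)]; linarith
    linarith [add_one_le_exp (200 + -(vv (η 0) (g 0) x)⁻¹), S0 x]
  have mem : ∀ x, exp 200 * expNegInvGlue (vv (η 0) (g 0) x) + S x ≤ 1 → x ∈ box := fun x hx => by
    have := T0 x hx
    rw [v0] at this
    exact (by linarith : sm x.1 ^ 2 + ‖x.2‖ ^ 2 ≤ 43)
  refine ⟨η, fun k => Nat.casesOn k (exp 200) e,
    fun x => exp 200 * expNegInvGlue (vv (η 0) (g 0) x) + S x,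
    (contDiff_const.mul (expNegInvGlue.contDiff.comp (contDiff_vv _ (hg _)))).add hS,
    fun x => add_nonneg (mul_nonneg (exp_pos _).le (expNegInvGlue.nonneg _)) (S0 x), hη,
    fun k => by cases k; exacts [exp_pos _, he _], mem, fun x hx => ?_, fun x hx k => ?_,
    fun ε hε => ?_, fun x hx t ht => ?_, fun w hw => ?_⟩
  · refine (hasSum_nat_add_iff' 1).1 ?_
    simpa [χ.one_of_mem_closedBall (mem_closedBall_zero_iff.2 (box_le hx))] using hs x
  · cases k with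
    | zero => exact ⟨T0 x hx, fun h => by have := T0 x hx; change _ ≤ (1 : ℝ); nlinarith⟩
    | succ k =>
      have c1 := hC1 (k + 1)
      have c2 := hC (k + 1) x (mem x hx)
      have c3 : sm x.1 ^ 2 + ‖x.2‖ ^ 2 ≤ 43 := mem x hx
      have c4 : vv (η (k + 1)) (g (k + 1)) x ≤ η (k + 1) * C (k + 1) :=
        mul_le_mul_of_nonneg_left (by linarith) (hη (k + 1)).le
      have c5 : η (k + 1) * C (k + 1) ^ 2 = 1 / 200 := by simp only [η]; field_simp
      have c6 := hη (k + 1)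
      refine ⟨by nlinarith, fun h => ?_⟩
      calc _ ≤ (η (k + 1) * C (k + 1)) ^ 2 := by gcongr
        _ = η (k + 1) * (η (k + 1) * C (k + 1) ^ 2) := by ring
        _ ≤ _ := by rw [c5]; linarith
  · obtain ⟨N, hN⟩ := exists_pow_lt_of_lt_one hε (show (1 / 2 : ℝ) < 1 by norm_num)
    refine ⟨N, fun x _ hv => ?_⟩
    rw [expNegInvGlue.zero_of_nonpos (hv 0 (Nat.zero_le _)), mul_zero, zero_add]
    have h1 := (hasSum_nat_add_iff' N).2 (hs x)
    rw [Finset.sum_eq_zero, sub_zero] at h1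
    · refine (hasSum_le (fun k => (le_abs_self _).trans ((hb _ x).trans ?_)) h1
        (hasSum_geometric_two' ((1 / 2) ^ N))).trans hN.le
      rw [pow_add, one_div, inv_pow]
      field_simp
      linarith
    · intro k hk
      rw [expNegInvGlue.zero_of_nonpos (hv (k + 1) (Finset.mem_range.1 hk)), mul_zero, mul_zero]
  · have b := mem x hx
    rcases le_total (exp 200 * expNegInvGlue (vv (η 0) (g 0) (ray x t))) (1 / 2) with h | h
    · exact le_max_of_le_left (by linarith [S1 (ray x t)])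
    refine le_max_of_le_right ?_
    have a1 := T0 x hx
    have a2 : 0 < vv (η 0) (g 0) (ray x t) := by
      by_contra h'
      rw [expNegInvGlue.zero_of_nonpos (not_lt.1 h')] at h
      linarith
    have a3 : 42 * (1 - t) ≤ vv (η 0) (g 0) x - vv (η 0) (g 0) (ray x t) := by
      rw [v0, sq_ray b ht] at a2
      rw [v0, v0, sq_ray b ht]
      have := add_nonneg (sq_nonneg (sm x.1)) (sq_nonneg ‖x.2‖)
      generalize sm x.1 ^ 2 + ‖x.2‖ ^ 2 = σ at *
      have t2 : t ^ 2 ≤ t := by nlinarith [ht.1, ht.2]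
      have : 42 ≤ σ := by nlinarith [ht.1, ht.2]
      nlinarith [ht.1, ht.2]
    have a4 := hL (ray x t) x
    have a5 : δ * ‖ray x t - x‖ ≤ 1 - t := by
      refine (mul_le_mul_of_nonneg_left (dist_ray b ht) δ0.le).trans_eq ?_
      rw [hδ]
      field_simp
    have t1 : 0 ≤ 1 - t := by linarith [ht.2]
    generalize vv (η 0) (g 0) x = v₁ at *
    generalize vv (η 0) (g 0) (ray x t) = v₂ at *
    have a6 : 0 < v₁ := by linarith
    have a7 : expNegInvGlue v₁ = expNegInvGlue v₂ * exp (v₂⁻¹ - v₁⁻¹) := by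
      rw [glue_pos a6, glue_pos a2, ← exp_add]
      congr 1
      ring
    have a8 : v₁ - v₂ ≤ v₂⁻¹ - v₁⁻¹ := by
      rw [inv_sub_inv a2.ne' a6.ne', le_div_iff₀ (by positivity)]
      have : v₂ * v₁ ≤ 1 := by nlinarith
      nlinarith
    have a9 := add_one_le_exp (v₂⁻¹ - v₁⁻¹)
    rw [a7, ← mul_assoc]
    nlinarith
  · have : sm w = 0 := by rw [sm_eq (hw ▸ exp_le_one_iff.2 (by norm_num)), hw, log_one]
    rw [v0, this, expNegInvGlue.zero_of_nonpos (by simp)]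
    linarith [S1 (w, 0)]

end Pool.Agent.Lib.MP_eccbcf_an
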