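import Pool.Agent.Lib.MP_eccbcf_an.Zeta

set_option autoImplicit false

/-! Supporting functions at the boundary points. -/

namespace Pool.Agent.Lib.MP_eccbcf_an

open Set Filter Real
open scoped ContDiff Topology ComplexConjugate

variable {g : ℕ → ℂ × ℂ → ℂ} {η e : ℕ → ℝ} {Ψ : ℂ × ℂ → ℝ}

lemma rho_tw (Ψ : ℂ × ℂ → ℝ) (q : Fin 3 → ℂ) :
    rho Ψ q = ‖q 0‖ ^ 2 - 2 * (tw q).re + Ψ (q 1, q 2) := rho_eq Ψ q

lemma tw_pos (h : Psi g η e Ψ) {q : Fin 3 → ℂ} (hq : rho Ψ q ≤ 0) (h0 : q 0 ≠ 0) :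
    0 < (tw q).re := re_pos h hq h0

lemma eq_of_three {p q : Fin 3 → ℂ} (h0 : q 0 = p 0) (h1 : q 1 = p 1) (h2 : q 2 = p 2) : q = p := by
  funext i
  fin_cases i
  exacts [h0, h1, h2]

lemma sep_three (hB : Base g) {p : Fin 3 → ℂ} (hp : (p 1, p 2) ∈ zset g) {δ : ℝ} (hδ : 0 < δ) :
    ∃ G : (Fin 3 → ℂ) → ℂ, Differentiable ℂ G ∧
      ∀ q, (q 1, q 2) ∈ zset g → δ ≤ ‖q 1 - p 1‖ → (G q).re < (G p).re := by
  obtain ⟨G, hG, h⟩ := hB.sep _ hp δ hδ
  exact ⟨fun q => G (q 1, q 2), by fun_prop, fun q hq => h _ hq⟩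

theorem suppZero (hB : Base g) (h : Psi g η e Ψ) : SuppZero Ψ := by
  intro p hp p0 K hK hKC hpK
  let F : (Fin 3 → ℂ) → ℂ := fun q => if q 0 = 0 then 0 else Complex.exp (zeta q / 6)
  have dF : ∀ q, rho Ψ q ≤ 0 → q 0 ≠ 0 → DifferentiableAt ℂ (fun q => Complex.exp (zeta q / 6)) q :=
    fun q hq h0 => ((differentiableAt_zeta (tw_pos h hq h0)).mul_const _).cexp
  have cF : ContinuousOn F {q | rho Ψ q ≤ 0} := continuousOn_extZero (a := 1 / 6) (B := 0)
    (by norm_num) (fun q hq => (dF q hq.1 hq.2).continuousAt.continuousWithinAt) fun q _ _ => by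
      rw [Complex.norm_exp, Complex.div_ofNat_re, zeta_re]
      exact le_of_eq (by congr 1; ring)
  have pos : ∀ q, rho Ψ q ≤ 0 → q 0 ≠ 0 → 0 < (F q).re := fun q hq h0 => by
    have a := abs_le.1 (box_sm (mem_box h hq))
    have b := tau_mem (tw_pos h hq h0)
    have := pi_gt_three
    have := pi_lt_d2
    simp only [F, if_neg h0, Complex.exp_re, Complex.div_ofNat_im, zeta_im]
    exact mul_pos (exp_pos _) (cos_pos_of_mem_Ioo ⟨by linarith [b.1], by linarith [b.2]⟩)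
  have z : ∀ q, rho Ψ q ≤ 0 → -(F q).re = 0 → q 0 = 0 := fun q hq h0 => by
    by_contra h1
    linarith [pos q hq h1]
  have zp := mem_zset h (psi_eq_zero h hp.le p0)
  obtain ⟨G, M, c, hG, -, hc, Gp, hle⟩ := exists_local hK hpK (ψ := fun q => -(F q).re)
    (Complex.continuous_re.comp_continuousOn (cF.mono hKC)).neg
    (fun q hq => by
      by_cases h0 : q 0 = 0
      · simp [F, h0]
      · linarith [pos q (hKC q hq) h0])
    (fun q hq h0 h1 => eq_of_three ((z q (hKC q hq) h0).trans p0.symm) h1 (congrArg Prod.snd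
      (hB.graph _ (mem_zset h (psi_eq_zero h (hKC q hq) (z q (hKC q hq) h0))) _ zp h1)))
    fun δ hδ => (sep_three hB zp hδ).imp fun G hG => ⟨hG.1, fun q hq h0 =>
      hG.2 q (mem_zset h (psi_eq_zero h (hKC q hq) (z q (hKC q hq) h0)))⟩
  refine ⟨fun q => G q - M * F q, c, hc, hG.differentiableOn.sub (.const_mul (.congr
    (fun q hq => (dF q (le_of_lt hq) (fst_ne_zero h hq)).differentiableWithinAt)
    fun q hq => if_neg (fst_ne_zero h hq)) _),
    hG.continuous.continuousOn.sub (continuousOn_const.mul cF), by simp [Gp, F, p0],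
    fun q hq => ?_⟩
  have := hle q hq
  rw [Complex.sub_re, Complex.re_ofReal_mul]
  linarith

lemma finish (h : Psi g η e Ψ) {p : Fin 3 → ℂ} (hp : rho Ψ p = 0) {K : Set (Fin 3 → ℂ)}
    (hK : IsCompact K) (hKC : ∀ q ∈ K, rho Ψ q ≤ 0) (hpK : p ∉ K) {σ : (Fin 3 → ℂ) → ℝ}
    {a B : ℝ} (ha : 0 < a) (hc : ∀ q, 0 < (tw q).re → ContinuousAt σ q)
    (h0 : ∀ q, rho Ψ q ≤ 0 → q 0 ≠ 0 → 0 ≤ σ q ∧ -σ q ≤ B + a * log ‖q 0‖)
    (h1 : ∀ q, rho Ψ q ≤ 0 → q 0 ≠ 0 → σ q = 0 → q 1 = p 1 → q = p)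
    (h2 : ∀ δ : ℝ, 0 < δ → ∃ G : (Fin 3 → ℂ) → ℂ, Differentiable ℂ G ∧
      ∀ q, rho Ψ q ≤ 0 → q 0 ≠ 0 → σ q = 0 → δ ≤ ‖q 1 - p 1‖ → (G q).re < (G p).re)
    (hL : ∀ θ : ℝ, 0 < θ → ∃ L, LPH L ∧ L p = 0 ∧ ∀ q, rho Ψ q ≤ 0 → q 0 ≠ 0 → L q ≤ θ - σ q) :
    ∃ (h : (Fin 3 → ℂ) → ℂ) (κ c a B : ℝ), 0 < c ∧ 0 < a ∧
      DifferentiableOn ℂ h {q | rho Ψ q < 0} ∧ ContinuousOn h {q | rho Ψ q ≤ 0 ∧ q 0 ≠ 0} ∧
      (h p).re + κ * Real.log ‖p 1‖ = 0 ∧
      (∀ q ∈ K, q 0 ≠ 0 → (h q).re + κ * Real.log ‖q 1‖ ≤ -c) ∧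
      ∀ q, rho Ψ q ≤ 0 → q 0 ≠ 0 → (h q).re + κ * Real.log ‖q 1‖ ≤ B + a * Real.log ‖q 0‖ := by
  have cF : ContinuousOn (fun q => if q 0 = 0 then 0 else exp (-σ q)) {q | rho Ψ q ≤ 0} :=
    continuousOn_extZero (B := B) ha (fun q hq => (hc q (tw_pos h hq.1 hq.2)).neg.rexp.continuousWithinAt)
      fun q hq q0 => by
        rw [Real.norm_of_nonneg (exp_pos _).le, exp_le_exp]
        exact (h0 q hq q0).2
  have z : ∀ q : Fin 3 → ℂ, (if q 0 = 0 then 0 else exp (-σ q)) - 1 = 0 → q 0 ≠ 0 ∧ σ q = 0 :=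
    fun q h0 => by
      split_ifs at h0 with q0
      · simp at h0
      · exact ⟨q0, by simpa [sub_eq_zero] using h0⟩
  obtain ⟨G, M, c, hG, hM, hc, Gp, hle⟩ := exists_local hK hpK
    ((cF.mono hKC).sub continuousOn_const (g := fun _ => 1))
    (fun q hq => by
      change (if q 0 = 0 then 0 else exp (-σ q)) - 1 ≤ 0
      split_ifs with q0
      · norm_num
      · exact sub_nonpos.2 (exp_le_one_iff.2 (neg_nonpos.2 (h0 q (hKC q hq) q0).1)))
    (fun q hq h0 => h1 q (hKC q hq) (z q h0).1 (z q h0).2)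
    fun δ hδ => (h2 δ hδ).imp fun G hG => ⟨hG.1, fun q hq h0 =>
      hG.2 q (hKC q hq) (z q h0).1 (z q h0).2⟩
  obtain ⟨L, hL, Lp, hL'⟩ := hL (c / 2 / M) (by positivity)
  obtain ⟨f, κ, hf, e⟩ := (LPH.re fun q _ => hG q).add (hL.mul M)
  obtain ⟨B', hB'⟩ := (isCompact_cl h).exists_bound_of_continuousOn hG.continuous.continuousOn
  have e' : ∀ q, rho Ψ q ≤ 0 → (f q).re + κ * log ‖q 1‖ = (G q).re + M * L q := fun q hq => by
    rw [← box_log (mem_box h hq), ← e]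
  have t : M * (c / 2 / M) = c / 2 := by field_simp
  refine ⟨f, κ, c / 2, M * a, B' + c / 2 + M * B, by positivity, by positivity,
    fun q hq => (hf q (tw_pos h (le_of_lt hq) (fst_ne_zero h hq))).differentiableWithinAt,
    fun q hq => (hf q (tw_pos h hq.1 hq.2)).continuousAt.continuousWithinAt,
    by simp [e' p hp.le, Gp, Lp], fun q hq q0 => ?_, fun q hq q0 => ?_⟩
  · have a1 := hle q hq
    have a2 := hL' q (hKC q hq) q0
    have a3 := add_one_le_exp (-σ q)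
    simp only [Pi.sub_apply, if_neg q0] at a1
    rw [e' q (hKC q hq)]
    nlinarith
  · have a1 := (Complex.re_le_norm _).trans (hB' q hq)
    have a2 := hL' q hq q0
    have a3 := (h0 q hq q0).2
    rw [e' q hq]
    nlinarith

/-- The gap in the supporting inequality for the term `‖z‖ ^ 2`. -/
noncomputable def sig (p q : Fin 3 → ℂ) : ℝ :=
  gapA (log ‖q 0‖ - log ‖p 0‖ + (log (cos (tau p)) - log (cos (tau q)))) +
    (log (cos (tau p)) - log (cos (tau q)) - tan (tau p) * (tau q - tau p))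

lemma continuousAt_sig (p : Fin 3 → ℂ) {q : Fin 3 → ℂ} (hq : 0 < (tw q).re) :
    ContinuousAt (sig p) q := by
  have a := continuousAt_tau hq
  have b : ContinuousAt (fun q => log (cos (tau q))) q :=
    (continuous_cos.continuousAt.comp a).log (cos_pos_of_mem_Ioo (tau_mem hq)).ne'
  have c : ContinuousAt (fun q : Fin 3 → ℂ => log ‖q 0‖) q :=
    (continuous_apply 0).continuousAt.norm.log (norm_ne_zero_iff.2 (ne_of_tw hq))
  unfold sig gapA
  fun_prop

lemma sig_facts {p q : Fin 3 → ℂ} (hp : 0 < (tw p).re) (hq : 0 < (tw q).re) :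
    0 ≤ sig p q ∧ -sig p q ≤ 1 - log ‖p 0‖ / 2 + 1 / 2 * log ‖q 0‖ ∧
      (sig p q ≤ 0 → sm (q 1) = sm (p 1) → q 0 = p 0) := by
  have a := trig_one (tau_mem hp) (tau_mem hq)
  have b := trig_two (tau_mem hp) (tau_mem hq)
  have c := gapA_nonneg (log ‖q 0‖ - log ‖p 0‖ + (log (cos (tau p)) - log (cos (tau q))))
  have d := gapA_add (log ‖q 0‖ - log ‖p 0‖ + (log (cos (tau p)) - log (cos (tau q))))
    (-(log (cos (tau p)) - log (cos (tau q))))
  have s := sq_nonneg (tau q - tau p)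
  rw [add_neg_cancel_right] at d
  refine ⟨by unfold sig; linarith, ?_, fun h hs => ?_⟩
  · have := neg_abs_le (log ‖q 0‖ - log ‖p 0‖)
    unfold sig
    unfold gapA at d ⊢
    linarith
  · unfold sig at h
    have t : tau q = tau p := by nlinarith
    rw [t] at h c
    have := gapA_eq_zero (le_antisymm (by linarith) c)
    rw [← exp_zeta (ne_of_tw hp), ← exp_zeta (ne_of_tw hq)]
    congr 1
    exact Complex.ext (by rw [zeta_re, zeta_re]; linarith) (by rw [zeta_im, zeta_im, hs, t])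

lemma exp_ratio {p q : Fin 3 → ℂ} (hp : 0 < (tw p).re) (hq : 0 < (tw q).re) :
    exp (log (cos (tau p)) - log (cos (tau q)) - (log ‖q 0‖ - log ‖p 0‖)) =
      (tw p).re / (tw q).re := by
  have a := norm_pos_iff.2 (ne_of_tw hp)
  have b := norm_pos_iff.2 (ne_of_tw hq)
  have c := cos_pos_of_mem_Ioo (tau_mem hp)
  have d := cos_pos_of_mem_Ioo (tau_mem hq)
  simp only [exp_sub, exp_log a, exp_log b, exp_log c, exp_log d, tw_re]
  field_simp

/-- The supporting function of the term `‖z‖ ^ 2`. -/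
noncomputable def supZ (p q : Fin 3 → ℂ) : ℝ :=
  log ‖q 0‖ - log ‖p 0‖ + tan (tau p) * (tau q - tau p)

lemma lph_supZ (p : Fin 3 → ℂ) : LPH (supZ p) :=
  (LPH.log.sub (.const _)).add ((LPH.tau.sub (.const _)).mul _)

lemma supZ_eq {p q : Fin 3 → ℂ} (hp : 0 < (tw p).re) (hq : 0 < (tw q).re) :
    ‖p 0‖ ^ 2 / (2 * (tw p).re) * supZ p q =
      ‖q 0‖ ^ 2 / (2 * (tw q).re) - ‖p 0‖ ^ 2 / (2 * (tw p).re) * (1 + sig p q) := by
  have a := norm_pos_iff.2 (ne_of_tw hp)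
  have b := norm_pos_iff.2 (ne_of_tw hq)
  have c := cos_pos_of_mem_Ioo (tau_mem hp)
  have d := cos_pos_of_mem_Ioo (tau_mem hq)
  simp only [supZ, sig, gapA, exp_add, exp_sub, exp_log a, exp_log b, exp_log c, exp_log d, tw_re]
  field_simp
  ring

/-- The supporting function of one flat term. -/
noncomputable def supT (η : ℝ) (g : ℂ × ℂ → ℂ) (p q : Fin 3 → ℂ) : ℝ :=
  η / vv η g (p 1, p 2) ^ 2 * 2 * ((conj (g (p 1, p 2)) * (g (q 1, q 2) - g (p 1, p 2))).re +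
    sm (p 1) * (sm (q 1) - sm (p 1)) + (conj (p 2) * (q 2 - p 2)).re) -
  (log ‖q 0‖ - log ‖p 0‖) + tan (tau p) * (tau q - tau p) - 1 / 8 * ((zeta q - zeta p) ^ 2).re

lemma lph_supT (η : ℝ) {g : ℂ × ℂ → ℂ} (hg : Differentiable ℂ g) (p : Fin 3 → ℂ) :
    LPH (supT η g p) :=
  ((((((LPH.re fun q _ => by fun_prop).add ((LPH.sm.sub (.const _)).mul _)).add
    (LPH.re fun q _ => by fun_prop)).mul _).sub (LPH.log.sub (.const _))).add
    ((LPH.tau.sub (.const _)).mul _)).sub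
    ((LPH.re fun _ hq => ((differentiableAt_zeta hq).sub_const _).pow 2).mul _)

lemma norm_sq_tangent (a b : ℂ) : ‖b‖ ^ 2 = ‖a‖ ^ 2 + 2 * (conj a * (b - a)).re + ‖b - a‖ ^ 2 := by
  simp only [Complex.sq_norm, Complex.normSq_apply, Complex.mul_re, Complex.sub_re, Complex.sub_im,
    Complex.conj_re, Complex.conj_im]
  ring

lemma supT_le (h : Psi g η e Ψ) {p q : Fin 3 → ℂ} (hp : rho Ψ p ≤ 0) (p0 : p 0 ≠ 0)
    (hq : rho Ψ q ≤ 0) (q0 : q 0 ≠ 0) (k : ℕ) :
    e k * expNegInvGlue (vv (η k) (g k) (p 1, p 2)) / (2 * (tw p).re) * supT (η k) (g k) p q ≤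
      e k * expNegInvGlue (vv (η k) (g k) (q 1, q 2)) / (2 * (tw q).re) -
      e k * expNegInvGlue (vv (η k) (g k) (p 1, p 2)) / (2 * (tw p).re) *
        (1 + ((sm (q 1) - sm (p 1)) ^ 2 / 2 + ‖q 2 - p 2‖ ^ 2)) := by
  have tp := tw_pos h hp p0
  have tq := tw_pos h hq q0
  have ek := h.e_pos k
  have gq := expNegInvGlue.nonneg (vv (η k) (g k) (q 1, q 2))
  rcases le_or_gt (vv (η k) (g k) (p 1, p 2)) 0 with v0 | v0
  · simp only [expNegInvGlue.zero_of_nonpos v0, mul_zero, zero_div, zero_mul, sub_zero]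
    positivity
  have gp := expNegInvGlue.pos_of_pos v0
  have a := term_ineq (R := log ‖q 0‖ - log ‖p 0‖) v0 (h.small _ (psi_le hp) k).1
    (h.small _ (psi_le hq) k).1 (trig_one (tau_mem tp) (tau_mem tq))
    (trig_two (tau_mem tp) (tau_mem tq)) (trig_three (tau_mem tp) (tau_mem tq))
  have b : 1 ≤ η k / vv (η k) (g k) (p 1, p 2) ^ 2 :=
    (one_le_div (by positivity)).2 ((h.small _ (psi_le hp) k).2 v0)
  have c : (vv (η k) (g k) (q 1, q 2) - vv (η k) (g k) (p 1, p 2)) / vv (η k) (g k) (p 1, p 2) ^ 2 =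
      η k / vv (η k) (g k) (p 1, p 2) ^ 2 * (‖g k (q 1, q 2)‖ ^ 2 + sm (q 1) ^ 2 + ‖q 2‖ ^ 2 -
        (‖g k (p 1, p 2)‖ ^ 2 + sm (p 1) ^ 2 + ‖p 2‖ ^ 2)) := by
    rw [div_mul_eq_mul_div]
    congr 1
    unfold vv
    ring
  have d : ((zeta q - zeta p) ^ 2).re = (log ‖q 0‖ - log ‖p 0‖) ^ 2 -
      (sm (q 1) - sm (p 1) + (tau q - tau p)) ^ 2 := by
    simp only [sq, Complex.mul_re, Complex.sub_re, Complex.sub_im, zeta_re, zeta_im]
    ring
  have i : supT (η k) (g k) p q + (1 + ((sm (q 1) - sm (p 1)) ^ 2 / 2 + ‖q 2 - p 2‖ ^ 2)) ≤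
      expNegInvGlue (vv (η k) (g k) (q 1, q 2)) / expNegInvGlue (vv (η k) (g k) (p 1, p 2)) *
        ((tw p).re / (tw q).re) := by
    rw [exp_ratio tp tq, c, norm_sq_tangent (g k (p 1, p 2)) (g k (q 1, q 2)),
      norm_sq_tangent (p 2) (q 2)] at a
    rw [supT, d]
    have := mul_le_mul_of_nonneg_right b (show 0 ≤ ‖g k (q 1, q 2) - g k (p 1, p 2)‖ ^ 2 +
      (sm (q 1) - sm (p 1)) ^ 2 + ‖q 2 - p 2‖ ^ 2 by positivity)
    nlinarith [sq_nonneg ‖g k (q 1, q 2) - g k (p 1, p 2)‖, sq_nonneg (sm (q 1) - sm (p 1)),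
      sq_nonneg (sm (q 1) - sm (p 1) - (tau q - tau p))]
  rw [le_sub_iff_add_le, ← mul_add]
  refine (mul_le_mul_of_nonneg_left i (by positivity)).trans_eq ?_
  field_simp

theorem suppAll (hB : Base g) (h : Psi g η e Ψ) : SuppAll Ψ := by
  intro p hp p0 K hK hKC hpK
  have tp := tw_pos h hp.le p0
  have ep := hp
  rw [rho_tw] at ep
  have key : ∀ q, rho Ψ q ≤ 0 → q 0 ≠ 0 →
      ‖q 0‖ ^ 2 / (2 * (tw q).re) + Ψ (q 1, q 2) / (2 * (tw q).re) ≤ 1 := fun q hq q0 => by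
    have := tw_pos h hq q0
    rw [rho_tw] at hq
    rw [← add_div, div_le_one (by positivity)]
    linarith
  rcases (h.nonneg (p 1, p 2)).eq_or_lt with z | z
  · have zp := mem_zset h z.symm
    have one : ‖p 0‖ ^ 2 / (2 * (tw p).re) = 1 := by
      rw [div_eq_one_iff_eq (by positivity)]
      linarith
    have nn : ∀ q, 0 < (tw q).re → 0 ≤ Ψ (q 1, q 2) / (2 * (tw q).re) := fun q tq =>
      div_nonneg (h.nonneg _) (by positivity)
    have zq : ∀ q, 0 < (tw q).re → sig p q + Ψ (q 1, q 2) / (2 * (tw q).re) = 0 →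
        (q 1, q 2) ∈ zset g := fun q tq h0 => mem_zset h (by
      have : Ψ (q 1, q 2) / (2 * (tw q).re) = 0 := by linarith [nn q tq, (sig_facts tp tq).1]
      simpa [tq.ne'] using this)
    refine finish h hp hK hKC hpK (σ := fun q => sig p q + Ψ (q 1, q 2) / (2 * (tw q).re))
      (a := 1 / 2) (B := 1 - log ‖p 0‖ / 2) (by norm_num) (fun q tq => ?_) (fun q hq q0 => ?_)
      (fun q hq q0 h0 h1 => ?_) (fun δ hδ => (sep_three hB zp hδ).imp fun G hG =>
        ⟨hG.1, fun q hq q0 h0 => hG.2 q (zq q (tw_pos h hq q0) h0)⟩)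
      fun θ hθ => ⟨supZ p, lph_supZ p, by simp [supZ], fun q hq q0 => ?_⟩
    · have := h.smooth.continuous
      exact (continuousAt_sig p tq).add (.div (by fun_prop) (continuous_const.mul
        (Complex.continuous_re.comp continuous_tw)).continuousAt (by positivity))
    · have tq := tw_pos h hq q0
      have := sig_facts tp tq
      exact ⟨by linarith [nn q tq, this.1], by linarith [nn q tq, this.2.1]⟩
    · have tq := tw_pos h hq q0
      exact eq_of_three ((sig_facts tp tq).2.2 (by linarith [nn q tq]) (by rw [h1])) h1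
        (congrArg Prod.snd (hB.graph _ (zq q tq h0) _ zp h1))
    · have := supZ_eq tp (tw_pos h hq q0)
      rw [one] at this
      linarith [key q hq q0]
  set A := ‖p 0‖ ^ 2 / (2 * (tw p).re) with hA
  set P := Ψ (p 1, p 2) / (2 * (tw p).re) with hP
  have A0 : 0 < A := by positivity
  have P0 : 0 < P := by positivity
  have AP : A + P = 1 := by
    rw [← add_div, div_eq_one_iff_eq (by positivity)]
    linarith
  have zq : ∀ q, 0 < (tw q).re →
      A * sig p q + P / 2 * ((sm (q 1) - sm (p 1)) ^ 2 / 2 + ‖q 2 - p 2‖ ^ 2) = 0 →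
      sig p q ≤ 0 ∧ sm (q 1) = sm (p 1) ∧ q 2 = p 2 := fun q tq h0 => by
    have a := mul_nonneg A0.le (sig_facts tp tq).1
    have b := sq_nonneg (sm (q 1) - sm (p 1))
    have c := sq_nonneg ‖q 2 - p 2‖
    have d : (sm (q 1) - sm (p 1)) ^ 2 / 2 + ‖q 2 - p 2‖ ^ 2 ≤ 0 := by nlinarith
    exact ⟨by nlinarith, sub_eq_zero.1 (pow_eq_zero_iff two_ne_zero |>.1 (by linarith)),
      sub_eq_zero.1 (norm_eq_zero.1 (pow_eq_zero_iff two_ne_zero |>.1 (by linarith)))⟩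
  refine finish h hp hK hKC hpK
    (σ := fun q => A * sig p q + P / 2 * ((sm (q 1) - sm (p 1)) ^ 2 / 2 + ‖q 2 - p 2‖ ^ 2))
    (a := A * (1 / 2)) (B := A * (1 - log ‖p 0‖ / 2)) (by positivity) (fun q tq => ?_)
    (fun q hq q0 => ?_) (fun q hq q0 h0 h1 => ?_)
    (fun δ hδ => ⟨fun q => conj (p 1) * q 1, by fun_prop, fun q hq q0 h0 h1 => ?_⟩) fun θ hθ => ?_
  · have := continuous_sm1
    have := continuousAt_sig p tq
    fun_prop
  · have := sig_facts tp (tw_pos h hq q0)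
    have a := mul_nonneg A0.le this.1
    have b := mul_le_mul_of_nonneg_left this.2.1 A0.le
    have c : 0 ≤ P / 2 * ((sm (q 1) - sm (p 1)) ^ 2 / 2 + ‖q 2 - p 2‖ ^ 2) := by positivity
    exact ⟨by linarith, by linarith⟩
  · have tq := tw_pos h hq q0
    obtain ⟨a, b, c⟩ := zq q tq h0
    exact eq_of_three ((sig_facts tp tq).2.2 a b) h1 c
  · have a := norm_sq_tangent (p 1) (q 1)
    have b : ‖q 1‖ = ‖p 1‖ := (box_norm (mem_box h hq)).trans
      ((congrArg exp (zq q (tw_pos h hq q0) h0).2.1).trans (box_norm (mem_box h hp.le)).symm)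
    rw [b, mul_sub, Complex.sub_re] at a
    nlinarith
  · have s := ((h.sum _ (mem_box h hp.le)).div_const (2 * (tw p).re)).tendsto_sum_nat
    obtain ⟨N, h1, h2⟩ := ((s.eventually (lt_mem_nhds (show P - θ < _ by linarith))).and
      (s.eventually (lt_mem_nhds (show P / 2 < _ by linarith)))).exists
    refine ⟨_, ((lph_supZ p).mul A).add (LPH.sum (fun k => (lph_supT (η k)
      ((hB.smooth k).differentiable (by simp)) p).mul
      (e k * expNegInvGlue (vv (η k) (g k) (p 1, p 2)) / (2 * (tw p).re))) N),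
      by simp [supZ, supT], fun q hq q0 => ?_⟩
    have tq := tw_pos h hq q0
    have a := supZ_eq tp tq
    have b := Finset.sum_le_sum (s := Finset.range N) fun k _ => supT_le h hp.le p0 hq q0 k
    have c := sum_le_hasSum (Finset.range N) (fun k _ => div_nonneg
      (mul_nonneg (h.e_pos k).le (expNegInvGlue.nonneg _)) (by positivity))
      ((h.sum _ (mem_box h hq)).div_const (2 * (tw q).re))
    have d := mul_le_mul_of_nonneg_right h2.le
      (show 0 ≤ (sm (q 1) - sm (p 1)) ^ 2 / 2 + ‖q 2 - p 2‖ ^ 2 by positivity)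
    rw [Finset.sum_sub_distrib, ← Finset.sum_mul] at b
    linarith [key q hq q0]

end Pool.Agent.Lib.MP_eccbcf_an
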