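import Pool.Agent.Lib.MP_eccbcf_an.Defs

set_option autoImplicit false

/-! The subsolution on an annulus with small discs removed. -/

namespace Pool.Agent.Lib.MP_eccbcf_an

open Set Filter
open scoped Topology ComplexConjugate

/-- A lower bound at the origin by a harmonic function plus a multiple of the squared norm. -/
def Minor (Φ : ℂ → ℝ) (γ : ℝ) : Prop :=
  ∃ P : ℂ → ℂ, AnalyticAt ℂ P 0 ∧ (P 0).re = Φ 0 ∧
    ∀ᶠ t in 𝓝 (0 : ℂ), (P t).re + γ * ‖t‖ ^ 2 ≤ Φ t

lemma Minor.add {Φ Φ' : ℂ → ℝ} {γ γ' : ℝ} (h : Minor Φ γ) (h' : Minor Φ' γ') :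
    Minor (fun t => Φ t + Φ' t) (γ + γ') := by
  obtain ⟨P, a, b, c⟩ := h
  obtain ⟨P', a', b', c'⟩ := h'
  refine ⟨fun t => P t + P' t, a.add a', by simp [b, b'], ?_⟩
  filter_upwards [c, c'] with t h1 h2
  rw [Complex.add_re]
  linarith

lemma Minor.smul {Φ : ℂ → ℝ} {γ : ℝ} (h : Minor Φ γ) {b : ℝ} (hb : 0 ≤ b) :
    Minor (fun t => b * Φ t) (b * γ) := by
  obtain ⟨P, a, e, c⟩ := h
  refine ⟨fun t => (b : ℂ) * P t, analyticAt_const.mul a, by simp [e], ?_⟩
  filter_upwards [c] with t h1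
  rw [Complex.re_ofReal_mul, mul_assoc, ← mul_add]
  exact mul_le_mul_of_nonneg_left h1 hb

lemma Minor.congr {Φ Φ' : ℂ → ℝ} {γ : ℝ} (h : Minor Φ γ) (e : ∀ᶠ t in 𝓝 (0 : ℂ), Φ t = Φ' t) :
    Minor Φ' γ := by
  obtain ⟨P, a, b, c⟩ := h
  refine ⟨P, a, b.trans e.self_of_nhds, ?_⟩
  filter_upwards [c, e] with t h1 h2
  rwa [← h2]

lemma Minor.mono {Φ : ℂ → ℝ} {γ γ' : ℝ} (h : Minor Φ γ) (e : γ' ≤ γ) : Minor Φ γ' := by
  obtain ⟨P, a, b, c⟩ := h
  refine ⟨P, a, b, ?_⟩
  filter_upwards [c] with t h1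
  have : γ' * ‖t‖ ^ 2 ≤ γ * ‖t‖ ^ 2 := by gcongr
  linarith

lemma minor_re {H : ℂ → ℂ} (hH : AnalyticAt ℂ H 0) : Minor (fun t => (H t).re) 0 :=
  ⟨H, hH, rfl, Eventually.of_forall fun t => by simp⟩

lemma minor_sum {Φ : ℕ → ℂ → ℝ} {γ : ℕ → ℝ} (N : ℕ) (h : ∀ j < N, Minor (Φ j) (γ j)) :
    Minor (fun t => ∑ j ∈ Finset.range N, Φ j t) (∑ j ∈ Finset.range N, γ j) := by
  induction N with
  | zero => simpa using minor_re (H := fun _ => 0) analyticAt_const
  | succ N ih =>
    simp only [Finset.sum_range_succ]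
    exact (ih fun j hj => h j (by omega)).add (h N (by omega))

lemma minor_key {H G : ℂ → ℂ} (hH : AnalyticAt ℂ H 0) (hG : AnalyticAt ℂ G 0) {γ : ℝ}
    (hγ : γ < (deriv H 0 * conj (deriv G 0)).re) : Minor (fun t => (H t * conj (G t)).re) γ := by
  refine ⟨fun t => H t * conj (G 0) + conj (H 0) * (G t - G 0),
    (hH.mul analyticAt_const).add (analyticAt_const.mul (hG.sub analyticAt_const)), by simp, ?_⟩
  have c : ContinuousAt (fun t => (dslope H 0 t * conj (dslope G 0 t)).re) 0 :=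
    Complex.continuous_re.continuousAt.comp
      ((continuousAt_dslope_same.2 hH.differentiableAt).mul
        (Complex.continuous_conj.continuousAt.comp
          (continuousAt_dslope_same.2 hG.differentiableAt)))
  have e := c.eventually (lt_mem_nhds (a := γ) (by simpa [dslope_same] using hγ))
  filter_upwards [e] with t ht
  have h1 : H t = H 0 + t * dslope H 0 t := by
    have := sub_smul_dslope H 0 t
    rw [sub_zero, smul_eq_mul] at this
    rw [this]
    ring
  have h2 : G t = G 0 + t * dslope G 0 t := by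
    have := sub_smul_dslope G 0 t
    rw [sub_zero, smul_eq_mul] at this
    rw [this]
    ring
  have h3 : γ * ‖t‖ ^ 2 ≤ (dslope H 0 t * conj (dslope G 0 t)).re * ‖t‖ ^ 2 := by gcongr
  rw [h1, h2]
  generalize dslope H 0 t = a at *
  generalize dslope G 0 t = b at *
  rw [← Complex.normSq_eq_norm_sq, Complex.normSq_apply] at h3 ⊢
  simp only [Complex.add_re, Complex.mul_re, Complex.mul_im, Complex.add_im, Complex.sub_re,
    Complex.sub_im, Complex.conj_re, Complex.conj_im] at h3 ⊢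
  nlinarith

/-- The multiplier in front of the logarithmic pole. -/
noncomputable def mq (q w : ℂ) : ℝ :=
  (Complex.exp (-(Complex.I * ((Real.log ‖w‖ - Real.log ‖q‖ : ℝ) : ℂ)) / 2) *
    (1 + Complex.I / 2 * (w / q - 1))).re

/-- One logarithmic pole. -/
noncomputable def tq (q w : ℂ) : ℝ := mq q w * Real.log ‖w - q‖

lemma continuousAt_mq (q : ℂ) {w : ℂ} (hw : w ≠ 0) : ContinuousAt (mq q) w := by
  have h : ContinuousAt (fun w : ℂ => Real.log ‖w‖) w :=
    continuous_norm.continuousAt.log (norm_ne_zero_iff.2 hw)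
  refine Complex.continuous_re.continuousAt.comp (ContinuousAt.mul ?_ (by fun_prop))
  refine ContinuousAt.cexp (ContinuousAt.div_const (ContinuousAt.neg ?_) _)
  exact continuousAt_const.mul
    (Complex.continuous_ofReal.continuousAt.comp (h.sub continuousAt_const))

lemma mq_self {q : ℂ} (hq : q ≠ 0) : mq q q = 1 := by simp [mq, div_self hq]

lemma continuousAt_tq {q w : ℂ} (hw : w ≠ 0) (hq : w ≠ q) : ContinuousAt (tq q) w :=
  (continuousAt_mq q hw).mul ((continuous_id.sub continuous_const).norm.continuousAt.log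
    (norm_ne_zero_iff.2 (sub_ne_zero.2 hq)))

lemma surf_pole {q : ℂ} (h0 : q ≠ 0) (h1 : q ≠ 1) {ε : ℝ} (hε : 0 < ε) :
    ∃ b r : ℝ, 0 < b ∧ 0 < r ∧ r ≤ ‖1 - q‖ ∧ -ε ≤ b * tq q 1 ∧ b * (Real.exp 7 / ‖q‖) ≤ ε ∧
      (∀ w : ℂ, Real.exp (-(2 * Real.pi)) ≤ ‖w‖ → ‖w‖ ≤ Real.exp (2 * Real.pi) →
        b * tq q w ≤ ε) ∧ ∀ w : ℂ, ‖w - q‖ = r → b * tq q w ≤ -4 := by
  have e := (continuousAt_mq q h0).eventually
    (lt_mem_nhds (a := (1 / 2 : ℝ)) (by rw [mq_self h0]; norm_num))
  obtain ⟨ρ, hρ, hm⟩ := Metric.eventually_nhds_iff.1 e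
  let K : Set ℂ := Metric.closedBall 0 (Real.exp (2 * Real.pi)) ∩
    ({w | Real.exp (-(2 * Real.pi)) ≤ ‖w‖} ∩ {w | min ρ 1 ≤ ‖w - q‖})
  have hK : IsCompact K := (isCompact_closedBall _ _).inter_right
    ((isClosed_le continuous_const continuous_norm).inter
      (isClosed_le continuous_const (continuous_id.sub continuous_const).norm))
  have hρ1 : 0 < min ρ 1 := lt_min hρ one_pos
  obtain ⟨C, hC⟩ := hK.exists_bound_of_continuousOn (f := tq q) fun w hw =>
    (continuousAt_tq (norm_pos_iff.1 ((Real.exp_pos _).trans_le hw.2.1))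
      (sub_ne_zero.1 (norm_pos_iff.1 (hρ1.trans_le hw.2.2)))).continuousWithinAt
  set D := |C| + |tq q 1| + Real.exp 7 / ‖q‖ + 1 with hD
  have p1 : 0 < Real.exp 7 / ‖q‖ := div_pos (Real.exp_pos _) (norm_pos_iff.2 h0)
  have p2 := abs_nonneg C
  have p3 := abs_nonneg (tq q 1)
  have hD0 : 0 < D := by positivity
  have hb : 0 < ε / D := by positivity
  have key : ∀ x, x ≤ D → ε / D * x ≤ ε := fun x hx =>
    (mul_le_mul_of_nonneg_left hx hb.le).trans_eq (by field_simp)
  have p4 : 0 < ‖1 - q‖ := norm_pos_iff.2 (sub_ne_zero.2 h1.symm)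
  refine ⟨ε / D, min (min (ρ / 2) ‖1 - q‖) (Real.exp (-8 / (ε / D))), hb, by positivity,
    (min_le_left _ _).trans (min_le_right _ _), ?_, key _ (by linarith), fun w w1 w2 => ?_,
    fun w hw => ?_⟩
  · have := key (-tq q 1) (by linarith [neg_abs_le (tq q 1)])
    linarith
  · refine key _ ?_
    rcases le_or_gt (min ρ 1) ‖w - q‖ with h | h
    · have := hC w ⟨mem_closedBall_zero_iff.2 w2, w1, h⟩
      rw [Real.norm_eq_abs] at this
      linarith [le_abs_self (tq q w), le_abs_self C]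
    · have a1 := hm (y := w) (by rw [dist_eq_norm]; exact h.trans_le (min_le_left _ _))
      have a2 := Real.log_nonpos (norm_nonneg (w - q)) (h.le.trans (min_le_right _ _))
      have : tq q w ≤ 0 := mul_nonpos_of_nonneg_of_nonpos (by linarith) a2
      linarith
  · have r0 : 0 < ‖w - q‖ := by rw [hw]; positivity
    have a1 := hm (y := w) (by
      rw [dist_eq_norm, hw]
      exact ((min_le_left _ _).trans (min_le_left _ _)).trans_lt (by linarith))
    have a2 : Real.log ‖w - q‖ ≤ -8 / (ε / D) := by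
      rw [Real.log_le_iff_le_exp r0, hw]
      exact min_le_right _ _
    rw [le_div_iff₀ hb] at a2
    unfold tq
    nlinarith

lemma surf_log_norm {w : ℂ} (hw : w ≠ 0) (t : ℂ) :
    Real.log ‖w * Complex.exp t‖ = Real.log ‖w‖ + t.re := by
  rw [norm_mul, Complex.norm_exp, Real.log_mul (norm_ne_zero_iff.2 hw) (Real.exp_pos _).ne',
    Real.log_exp]

lemma surf_twist (s : ℝ) (t : ℂ) :
    (Real.exp (t.im / 2) : ℂ) * Complex.exp (-(Complex.I * ((s + t.re : ℝ) : ℂ)) / 2) =
      Complex.exp (-(Complex.I * s) / 2) * Complex.exp (-(Complex.I / 2) * t) := by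
  rw [Complex.ofReal_exp, ← Complex.exp_add, ← Complex.exp_add]
  congr 1
  apply Complex.ext <;> simp <;> ring

lemma minor_one : Minor (fun t => Real.exp (t.im / 2)) (1 / 32) := by
  have d : HasDerivAt (fun t : ℂ => Complex.exp (-(Complex.I / 4) * t)) (-(Complex.I / 4)) 0 := by
    simpa using ((hasDerivAt_id (0 : ℂ)).const_mul (-(Complex.I / 4))).cexp
  have a : AnalyticAt ℂ (fun t : ℂ => Complex.exp (-(Complex.I / 4) * t)) 0 := by fun_prop
  refine (minor_key a a ?_).congr (Eventually.of_forall fun t => ?_)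
  · rw [d.deriv, Complex.mul_conj, Complex.ofReal_re, Complex.normSq_eq_norm_sq]
    simp
    norm_num
  · rw [Complex.mul_conj, Complex.ofReal_re, Complex.normSq_eq_norm_sq, Complex.norm_exp,
      ← Real.exp_nat_mul]
    congr 1
    simp
    ring

lemma minor_cos {w : ℂ} (hw : w ≠ 0) :
    Minor (fun t => Real.exp (t.im / 2) * (2 * Real.cos (Real.log ‖w * Complex.exp t‖ / 2))) 0 := by
  have a : AnalyticAt ℂ (fun t : ℂ => 2 * (Complex.exp (-(Complex.I * (Real.log ‖w‖ : ℝ)) / 2) *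
      Complex.exp (-(Complex.I / 2) * t))) 0 := by fun_prop
  refine (minor_re a).congr (Eventually.of_forall fun t => ?_)
  rw [← surf_twist, surf_log_norm hw]
  generalize Real.log ‖w‖ + t.re = s
  have : -(Complex.I * (s : ℂ)) / 2 = ((-(s / 2) : ℝ) : ℂ) * Complex.I := by push_cast; ring
  rw [this, mul_left_comm, Complex.re_ofReal_mul]
  congr 1
  rw [show (2 : ℂ) = ((2 : ℝ) : ℂ) by simp, Complex.re_ofReal_mul, Complex.exp_ofReal_mul_I_re,
    Real.cos_neg]

lemma minor_tq {q w : ℂ} (h0 : q ≠ 0) (hw : w ≠ 0) (hq : w ≠ q) (h7 : ‖w‖ ≤ Real.exp 7) :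
    Minor (fun t => Real.exp (t.im / 2) * tq q (w * Complex.exp t)) (-(Real.exp 7 / ‖q‖)) := by
  have hq' : w - q ≠ 0 := sub_ne_zero.2 hq
  set c := Complex.exp (-(Complex.I * ((Real.log ‖w‖ - Real.log ‖q‖ : ℝ) : ℂ)) / 2) with hc
  have nc : ‖c‖ = 1 := by
    rw [hc, Complex.norm_exp]
    simp
  let H : ℂ → ℂ := fun t => c * Complex.exp (-(Complex.I / 2) * t) *
    (1 + Complex.I / 2 * (w * Complex.exp t / q - 1))
  let G : ℂ → ℂ := fun t => (Real.log ‖w - q‖ : ℝ) + Complex.log ((w * Complex.exp t - q) / (w - q))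
  have s : (w * Complex.exp 0 - q) / (w - q) ∈ Complex.slitPlane := by
    simp [div_self hq']
  have aH : AnalyticAt ℂ H 0 := by fun_prop
  have aG : AnalyticAt ℂ G 0 :=
    analyticAt_const.add (AnalyticAt.clog (by fun_prop) s)
  have dH : HasDerivAt H (c * ((w - q) / q) * (1 / 4 + Complex.I / 2)) 0 := by
    have d1 := (((hasDerivAt_id' (0 : ℂ)).const_mul (-(Complex.I / 2))).cexp.const_mul c).fun_mul
      ((((((Complex.hasDerivAt_exp 0).const_mul w).div_const q).sub_const 1).const_mul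
        (Complex.I / 2)).const_add 1)
    refine d1.congr_deriv ?_
    simp only [mul_zero, Complex.exp_zero, mul_one, one_mul]
    field_simp
    linear_combination (-(4 * c * (w - q))) * Complex.I_sq
  have dG : HasDerivAt G (w / (w - q)) 0 := by
    have d1 := ((((Complex.hasDerivAt_exp 0).const_mul w).sub_const q).div_const (w - q)).clog s
    refine (d1.const_add _).congr_deriv ?_
    simp [div_self hq']
  have n : ‖deriv H 0 * conj (deriv G 0)‖ ≤ Real.exp 7 / ‖q‖ := by
    have : ‖(1 / 4 + Complex.I / 2 : ℂ)‖ ≤ 1 := (norm_add_le _ _).trans (by simp; norm_num)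
    have p := norm_pos_iff.2 hq'
    have p0 := norm_pos_iff.2 h0
    rw [dH.deriv, dG.deriv, norm_mul, norm_mul, norm_mul, nc, Complex.norm_conj, norm_div, norm_div]
    calc _ ≤ 1 * (‖w - q‖ / ‖q‖) * 1 * (Real.exp 7 / ‖w - q‖) := by gcongr
      _ = _ := by field_simp
  have p1 : 0 < Real.exp 7 / ‖q‖ := div_pos (Real.exp_pos _) (norm_pos_iff.2 h0)
  have k := minor_key aH aG (γ := -(2 * (Real.exp 7 / ‖q‖))) (by
    have := abs_le.1 ((Complex.abs_re_le_norm _).trans n)
    linarith [this.1])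
  have m := ((minor_re (aH.mul aG)).add k).smul (b := 1 / 2) (by norm_num)
  refine (m.mono (by linarith)).congr ?_
  have ne : ∀ᶠ t in 𝓝 (0 : ℂ), w * Complex.exp t - q ≠ 0 :=
    ContinuousAt.eventually_ne (by fun_prop) (by simpa using hq')
  filter_upwards [ne] with t ht
  have e1 : (H t).re = Real.exp (t.im / 2) * mq q (w * Complex.exp t) := by
    rw [mq, ← Complex.re_ofReal_mul, ← mul_assoc, surf_log_norm hw, add_sub_right_comm,
      surf_twist]
  have e2 : (G t).re = Real.log ‖w * Complex.exp t - q‖ := by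
    rw [Complex.add_re, Complex.ofReal_re, Complex.log_re, norm_div,
      Real.log_div (norm_ne_zero_iff.2 ht) (norm_ne_zero_iff.2 hq')]
    ring
  rw [tq, ← mul_assoc, ← e1, ← e2]
  simp only [Pi.mul_apply, Complex.mul_re, Complex.conj_re, Complex.conj_im]
  ring

theorem exists_sub {q : ℕ → ℂ} (h0 : ∀ j, q j ≠ 0) (h1 : ∀ j, q j ≠ 1) :
    ∃ r : ℕ → ℝ, (∀ j, 0 < r j) ∧ ∀ N, ∃ φ : ℂ → ℝ, Sub (cheese q r N) φ := by
  choose b r hb hr r1 b1 b2 b3 b4 using fun j =>
    surf_pole (h0 j) (h1 j) (ε := (1 / 2) ^ j / 128) (by positivity)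
  refine ⟨r, hr, fun N => ⟨fun w => 1 + 2 * Real.cos (Real.log ‖w‖ / 2) +
    ∑ j ∈ Finset.range N, b j * tq (q j) w, fun w hw => ?_, ⟨1, ⟨?_, ?_, fun j _ => r1 j⟩, ?_⟩,
    fun w hw hp => ?_⟩⟩
  all_goals
    have S : ∑ j ∈ Finset.range N, (1 / 2 : ℝ) ^ j / 128 ≤ 1 / 64 := by
      rw [← Finset.sum_div]
      linarith [sum_geometric_two_le N]
  · have w0 : w ≠ 0 := norm_pos_iff.1 ((Real.exp_pos _).trans_le hw.1)
    refine ContinuousAt.continuousWithinAt ((continuousAt_const.add (continuousAt_const.mul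
      (Real.continuous_cos.continuousAt.comp
        ((continuous_norm.continuousAt.log (norm_ne_zero_iff.2 w0)).div_const 2)))).add
      (tendsto_finsetSum _ fun j hj => continuousAt_const.mul (continuousAt_tq w0 ?_)))
    exact sub_ne_zero.1 (norm_pos_iff.1 ((hr j).trans_le (hw.2.2 j (Finset.mem_range.1 hj))))
  · rw [norm_one, Real.exp_le_one_iff]
    linarith [Real.pi_pos]
  · rw [norm_one]
    exact Real.one_le_exp (by positivity)
  · have := Finset.sum_le_sum (s := Finset.range N) fun j _ => b1 j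
    rw [Finset.sum_neg_distrib] at this
    simp only [norm_one, Real.log_one, zero_div, Real.cos_zero]
    linarith
  have w0 : w ≠ 0 := norm_pos_iff.1 ((Real.exp_pos _).trans_le hw.1)
  have wq : ∀ j < N, w ≠ q j := fun j hj =>
    sub_ne_zero.1 (norm_pos_iff.1 ((hr j).trans_le (hw.2.2 j hj)))
  have U := Finset.sum_le_sum (s := Finset.range N) fun j _ => b3 j w hw.1 hw.2.1
  refine ⟨?_, ?_⟩
  · have s1 : Real.exp (-(2 * Real.pi)) < ‖w‖ := hw.1.lt_of_ne fun e => by
      rw [← e, Real.log_exp, show -(2 * Real.pi) / 2 = -Real.pi by ring, Real.cos_neg,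
        Real.cos_pi] at hp
      linarith
    have s2 : ‖w‖ < Real.exp (2 * Real.pi) := hw.2.1.lt_of_ne fun e => by
      rw [e, Real.log_exp, show 2 * Real.pi / 2 = Real.pi by ring, Real.cos_pi] at hp
      linarith
    have s3 : ∀ j ∈ Finset.range N, ∀ᶠ v in 𝓝 w, r j < ‖v - q j‖ := fun j hj => by
      refine (show ContinuousAt (fun v : ℂ => ‖v - q j‖) w by fun_prop).eventually
        (lt_mem_nhds ((hw.2.2 j (Finset.mem_range.1 hj)).lt_of_ne fun e => ?_))
      have a1 := Finset.single_le_sum (f := fun i => (1 / 2 : ℝ) ^ i / 128 - b i * tq (q i) w)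
        (fun i _ => sub_nonneg.2 (b3 i w hw.1 hw.2.1)) hj
      rw [Finset.sum_sub_distrib] at a1
      have a2 := b4 j w e.symm
      have a3 : (0 : ℝ) < (1 / 2) ^ j / 128 := by positivity
      linarith [Real.cos_le_one (Real.log ‖w‖ / 2)]
    filter_upwards [continuous_norm.continuousAt.eventually (lt_mem_nhds s1),
      continuous_norm.continuousAt.eventually (gt_mem_nhds s2),
      (eventually_all_finset _).2 s3] with v v1 v2 v3
    exact ⟨v1.le, v2.le, fun j hj => (v3 j (Finset.mem_range.2 hj)).le⟩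
  · have h7 : ‖w‖ ≤ Real.exp 7 :=
      hw.2.1.trans (Real.exp_le_exp.2 (by linarith [Real.pi_lt_d2]))
    have m := (minor_one.add (minor_cos w0)).add (minor_sum N fun j hj =>
      ((minor_tq (h0 j) w0 (wq j hj) h7).smul (hb j).le).mono
        (γ' := -((1 / 2) ^ j / 128)) (by linarith [b2 j]))
    obtain ⟨P, a, e, c⟩ := (m.mono (γ' := 1 / 64) (by rw [Finset.sum_neg_distrib]; linarith)).congr
      (Φ' := fun t => Real.exp (t.im / 2) * (1 + 2 * Real.cos (Real.log ‖w * Complex.exp t‖ / 2) +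
        ∑ j ∈ Finset.range N, b j * tq (q j) (w * Complex.exp t)))
      (Eventually.of_forall fun t => by
        rw [mul_add, mul_add, mul_one, Finset.mul_sum]
        congr 1
        exact Finset.sum_congr rfl fun j _ => by ring)
    exact ⟨P, 1 / 64, a, by norm_num, by simpa using e, c⟩

end Pool.Agent.Lib.MP_eccbcf_an
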