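import Pool.Agent.Lib.MP_eccbcf_an.Defs

set_option autoImplicit false

/-! The branch of `log z` on the domain, and the localisation lemmas. -/

namespace Pool.Agent.Lib.MP_eccbcf_an

open Set Filter Real
open scoped ContDiff Topology

/-- The first coordinate, rotated so that the centre of the disc fibre is `1`. -/
noncomputable def tw (q : Fin 3 → ℂ) : ℂ := q 0 * Complex.exp (-(Complex.I * sm (q 1)))

/-- The argument of the rotated first coordinate. -/
noncomputable def tau (q : Fin 3 → ℂ) : ℝ := Complex.arg (tw q)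

/-- A branch of the logarithm of the first coordinate. -/
noncomputable def zeta (q : Fin 3 → ℂ) : ℂ := Complex.I * sm (q 1) + Complex.log (tw q)

lemma norm_tw (q : Fin 3 → ℂ) : ‖tw q‖ = ‖q 0‖ := by
  rw [tw, norm_mul, Complex.exp_neg, norm_inv, norm_centre, inv_one, mul_one]

lemma zeta_re (q : Fin 3 → ℂ) : (zeta q).re = log ‖q 0‖ := by
  simp [zeta, Complex.log_re, norm_tw]

lemma zeta_im (q : Fin 3 → ℂ) : (zeta q).im = sm (q 1) + tau q := by
  simp [zeta, Complex.log_im, tau]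

lemma ne_of_tw {q : Fin 3 → ℂ} (h : 0 < (tw q).re) : q 0 ≠ 0 := fun h0 => by
  simp [tw, h0] at h

lemma exp_zeta {q : Fin 3 → ℂ} (h : q 0 ≠ 0) : Complex.exp (zeta q) = q 0 := by
  rw [zeta, tw, Complex.exp_add, Complex.exp_log (mul_ne_zero h (Complex.exp_ne_zero _)),
    mul_left_comm, ← Complex.exp_add, add_neg_cancel, Complex.exp_zero, mul_one]

lemma tau_mem {q : Fin 3 → ℂ} (h : 0 < (tw q).re) : tau q ∈ Ioo (-(π / 2)) (π / 2) :=
  abs_lt.1 (Complex.abs_arg_lt_pi_div_two_iff.2 (Or.inl h))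

lemma tw_re (q : Fin 3 → ℂ) : (tw q).re = ‖q 0‖ * cos (tau q) := by
  rw [← norm_tw, tau, Complex.norm_mul_cos_arg]

lemma continuous_sm1 : Continuous fun q : Fin 3 → ℂ => sm (q 1) :=
  contDiff_sm.continuous.comp (continuous_apply 1)

lemma continuous_tw : Continuous tw := by
  have := continuous_sm1
  unfold tw
  fun_prop

lemma continuousAt_zeta {q : Fin 3 → ℂ} (h : 0 < (tw q).re) : ContinuousAt zeta q :=
  (continuous_const.mul (Complex.continuous_ofReal.comp continuous_sm1)).continuousAt.add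
    (continuous_tw.continuousAt.clog (Or.inl h))

lemma continuousAt_tau {q : Fin 3 → ℂ} (h : 0 < (tw q).re) : ContinuousAt tau q :=
  (Complex.continuousAt_arg (Or.inl h)).comp continuous_tw.continuousAt

lemma differentiableAt_zeta {q : Fin 3 → ℂ} (h : 0 < (tw q).re) : DifferentiableAt ℂ zeta q := by
  have h0 := ne_of_tw h
  have h1 : ∀ᶠ y in 𝓝 q, (zeta y - zeta q).im ∈ Ioo (-π) π :=
    ContinuousAt.eventually_mem (f := fun y => (zeta y - zeta q).im)
      (Complex.continuous_im.continuousAt.comp ((continuousAt_zeta h).sub continuousAt_const))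
      (isOpen_Ioo.mem_nhds (by simp [pi_pos]))
  have h2 : ∀ᶠ y in 𝓝 q, y 0 ≠ 0 := (continuous_apply 0).continuousAt.eventually_ne h0
  have h3 : DifferentiableAt ℂ (fun y : Fin 3 → ℂ => zeta q + Complex.log (y 0 / q 0)) q :=
    (DifferentiableAt.clog (by fun_prop) (by simp [div_self h0])).const_add _
  refine h3.congr_of_eventuallyEq ?_
  filter_upwards [h1, h2] with y a b
  rw [← exp_zeta b, ← exp_zeta h0, ← Complex.exp_sub, Complex.log_exp a.1 a.2.le]
  ring

/-- Functions of the form `re h + κ log ‖w‖` with `h` holomorphic where `re (z exp (-i s)) > 0`. -/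
def LPH (L : (Fin 3 → ℂ) → ℝ) : Prop :=
  ∃ (h : (Fin 3 → ℂ) → ℂ) (κ : ℝ), (∀ q, 0 < (tw q).re → DifferentiableAt ℂ h q) ∧
    ∀ q, L q = (h q).re + κ * sm (q 1)

lemma LPH.re {h : (Fin 3 → ℂ) → ℂ} (hh : ∀ q, 0 < (tw q).re → DifferentiableAt ℂ h q) :
    LPH fun q => (h q).re := ⟨h, 0, hh, by simp⟩

lemma LPH.sm : LPH fun q => sm (q 1) := ⟨0, 1, fun _ _ => differentiableAt_const _, by simp⟩

lemma LPH.const (c : ℝ) : LPH fun _ => c :=
  ⟨fun _ => c, 0, fun _ _ => differentiableAt_const _, by simp⟩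

lemma LPH.add {L L' : (Fin 3 → ℂ) → ℝ} (h : LPH L) (h' : LPH L') : LPH fun q => L q + L' q := by
  obtain ⟨f, a, hf, e⟩ := h
  obtain ⟨f', a', hf', e'⟩ := h'
  refine ⟨fun q => f q + f' q, a + a', fun q hq => (hf q hq).add (hf' q hq), fun q => ?_⟩
  simp only [e, e', Complex.add_re]
  ring

lemma LPH.mul (c : ℝ) {L : (Fin 3 → ℂ) → ℝ} (h : LPH L) : LPH fun q => c * L q := by
  obtain ⟨f, a, hf, e⟩ := h
  refine ⟨fun q => c * f q, c * a, fun q hq => (hf q hq).const_mul _, fun q => ?_⟩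
  simp only [e, Complex.re_ofReal_mul]
  ring

lemma LPH.sub {L L' : (Fin 3 → ℂ) → ℝ} (h : LPH L) (h' : LPH L') : LPH fun q => L q - L' q := by
  simpa [sub_eq_add_neg] using h.add (h'.mul (-1))

lemma LPH.sum {L : ℕ → (Fin 3 → ℂ) → ℝ} (h : ∀ k, LPH (L k)) (N : ℕ) :
    LPH fun q => ∑ k ∈ Finset.range N, L k q := by
  induction N with
  | zero => simpa using LPH.const 0
  | succ N ih => simpa only [Finset.sum_range_succ] using ih.add (h N)

lemma LPH.log : LPH fun q => log ‖q 0‖ := by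
  simpa only [zeta_re] using LPH.re fun _ => differentiableAt_zeta

lemma LPH.tau : LPH tau := by
  have := (LPH.re (h := fun q => -Complex.I * zeta q)
    fun _ h => (differentiableAt_zeta h).const_mul _).sub LPH.sm
  simpa [zeta_im] using this

/-- Extension by zero across `z = 0`. -/
lemma continuousOn_extZero {X : Type*} [NormedAddCommGroup X] {C : Set (Fin 3 → ℂ)}
    {F : (Fin 3 → ℂ) → X} {a B : ℝ} (ha : 0 < a) (hF : ContinuousOn F {q | q ∈ C ∧ q 0 ≠ 0})
    (hb : ∀ q ∈ C, q 0 ≠ 0 → ‖F q‖ ≤ exp (B + a * log ‖q 0‖)) :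
    ContinuousOn (fun q => if q 0 = 0 then 0 else F q) C := by
  intro q hq
  by_cases h0 : q 0 = 0
  · have c : Continuous fun y : Fin 3 → ℂ => exp B * ‖y 0‖ ^ a :=
      continuous_const.mul ((continuous_apply 0).norm.rpow_const fun _ => Or.inr ha.le)
    have t := (c.tendsto q).mono_left (nhdsWithin_le_nhds (s := C))
    rw [h0, norm_zero, zero_rpow ha.ne', mul_zero] at t
    rw [ContinuousWithinAt, if_pos h0]
    refine squeeze_zero_norm' (eventually_nhdsWithin_of_forall fun y hy => ?_) t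
    split_ifs with h
    · rw [norm_zero]
      positivity
    · rw [rpow_def_of_pos (norm_pos_iff.2 h), ← exp_add, mul_comm]
      exact hb y hy h
  · have h2 : ∀ᶠ y in 𝓝[C] q, y 0 ≠ 0 :=
      nhdsWithin_le_nhds ((continuous_apply 0).continuousAt.eventually_ne h0)
    refine ((hF q ⟨hq, h0⟩).mono_of_mem_nhdsWithin ?_).congr_of_eventuallyEq ?_ (if_neg h0)
    · filter_upwards [h2, self_mem_nhdsWithin] with y a b using ⟨b, a⟩
    · filter_upwards [h2] with y a using if_neg a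

/-- Localisation to a set on which the second coordinate is peaked by entire functions. -/
lemma exists_local {K : Set (Fin 3 → ℂ)} (hK : IsCompact K) {p : Fin 3 → ℂ} (hp : p ∉ K)
    {ψ : (Fin 3 → ℂ) → ℝ} (hψ : ContinuousOn ψ K) (h0 : ∀ q ∈ K, ψ q ≤ 0)
    (h1 : ∀ q ∈ K, ψ q = 0 → q 1 = p 1 → q = p)
    (h2 : ∀ δ : ℝ, 0 < δ → ∃ G : (Fin 3 → ℂ) → ℂ, Differentiable ℂ G ∧
      ∀ q ∈ K, ψ q = 0 → δ ≤ ‖q 1 - p 1‖ → (G q).re < (G p).re) :
    ∃ (G : (Fin 3 → ℂ) → ℂ) (M c : ℝ), Differentiable ℂ G ∧ 0 < M ∧ 0 < c ∧ G p = 0 ∧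
      ∀ q ∈ K, (G q).re + M * ψ q ≤ -c := by
  obtain ⟨M, δ, -, hδ, h⟩ := exists_weight hK (g := fun q => -‖q 1 - p 1‖) (by fun_prop) hψ h0
    fun q hq h => neg_lt_zero.2 (norm_pos_iff.2 (sub_ne_zero.2 fun h' => hp (h1 q hq h h' ▸ hq)))
  obtain ⟨G, hG, h3⟩ := h2 δ hδ
  obtain ⟨M, c, hM, hc, h4⟩ := exists_weight hK (g := fun q => (G q - G p).re)
    (Complex.continuous_re.comp (hG.continuous.sub continuous_const)).continuousOn hψ h0
    fun q hq h' => by
      have := h q hq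
      rw [h'] at this
      rw [Complex.sub_re]
      linarith [h3 q hq h' (by linarith)]
  exact ⟨fun q => G q - G p, M, c, hG.sub_const _, hM, hc, sub_self _, h4⟩

end Pool.Agent.Lib.MP_eccbcf_an
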